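import Pool.Agent.T6.H59.NN.Rad

/-!
# A configuration with a good vertex
-/

set_option autoImplicit false

namespace Pool.Agent.T6.H59.NN

open MeasureTheory
open scoped ENNReal

variable {d : ℕ}

/-- volume of the cross-polytope -/
lemma cross_vol (hd : 0 < d) {S : ℝ} (hS : 0 ≤ S) :
    volume {a : Fin d → ℝ | ∑ i, |a i| ≤ S} ≤
      ENNReal.ofReal ((2 * S * Real.exp 1 / d) ^ d) := by
  haveI : Nonempty (Fin d) := ⟨⟨0, hd⟩⟩
  have hd' : (0 : ℝ) < d := by exact_mod_cast hd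
  have h := MeasureTheory.volume_sum_rpow_le (Fin d) (p := 1) le_rfl S
  have h1 : {x : Fin d → ℝ | (∑ i, |x i| ^ (1 : ℝ)) ^ (1 / (1 : ℝ)) ≤ S} =
      {a : Fin d → ℝ | ∑ i, |a i| ≤ S} := by
    ext x; simp
  rw [h1] at h
  rw [h, Fintype.card_fin]
  have h2 : (1 : ℝ) / 1 + 1 = 2 := by norm_num
  rw [h2, Real.Gamma_two, mul_one, div_one, Real.Gamma_nat_eq_factorial,
    ← ENNReal.ofReal_pow hS, ← ENNReal.ofReal_mul (by positivity)]
  refine ENNReal.ofReal_le_ofReal ?_
  have h3 := Real.pow_div_factorial_le_exp (d : ℝ) hd'.le d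
  have h4 : Real.exp (d : ℝ) = Real.exp 1 ^ d := by rw [← Real.exp_nat_mul]; simp
  rw [h4] at h3
  have h5 : (2 * S * Real.exp 1 / d) ^ d = (2 * S / d) ^ d * Real.exp 1 ^ d := by
    rw [← mul_pow]; congr 1; ring
  have h6 : S ^ d * (2 ^ d / (d.factorial : ℝ)) =
      (2 * S / d) ^ d * ((d : ℝ) ^ d / (d.factorial : ℝ)) := by
    rw [div_pow, mul_pow]
    have h7 : (d : ℝ) ^ d ≠ 0 := by positivity
    have h8 : (d.factorial : ℝ) ≠ 0 := by positivity
    field_simp
  rw [h5, h6]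
  exact mul_le_mul_of_nonneg_left h3 (by positivity)

lemma cross_le (hd : 2 ^ 20 ≤ d) {t : ℕ} (ht : 0 < t) :
    volume {a : Fin d → ℝ | ∑ i, |a i| ≤ 2 * rr d t * Real.sqrt d} ≤
      ENNReal.ofReal (8 ^ d / 100 / t) := by
  have hd1 : 0 < d := lt_of_lt_of_le (by norm_num) hd
  have hd' : (0 : ℝ) < d := by exact_mod_cast hd1
  have hr := rr_pos hd1 ht
  have ht' : (0 : ℝ) < t := by exact_mod_cast ht
  have hve := ve_pos hd1
  have hq : 0 < Real.sqrt d := Real.sqrt_pos.mpr hd'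
  refine (cross_vol hd1 (by positivity)).trans (ENNReal.ofReal_le_ofReal ?_)
  have h1 : 2 * (2 * rr d t * Real.sqrt d) * Real.exp 1 / d =
      4 * Real.exp 1 * (rr d t / Real.sqrt d) := by
    rw [div_eq_iff hd'.ne']
    calc 2 * (2 * rr d t * Real.sqrt d) * Real.exp 1 =
          4 * Real.exp 1 * (rr d t / Real.sqrt d) * (Real.sqrt d * Real.sqrt d) := by
            field_simp
            ring
      _ = 4 * Real.exp 1 * (rr d t / Real.sqrt d) * d := by rw [Real.mul_self_sqrt hd'.le]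
  have h2 : 4 * Real.exp 1 * (rr d t / Real.sqrt d) ≤ 11 * (rr d t / Real.sqrt d) := by
    refine mul_le_mul_of_nonneg_right ?_ (by positivity)
    have := Real.exp_one_lt_d9
    linarith
  have h3 : (8 : ℝ) ^ d / 100 / t = (8 * rr d t) ^ d * ve d / 100 := by
    rw [mul_pow, rr_pow hd1 ht]
    field_simp
  have h4 : (8 * rr d t) ^ d * (2 / Real.sqrt d) ^ d / 100 ≤ (8 * rr d t) ^ d * ve d / 100 := by
    refine div_le_div_of_nonneg_right (mul_le_mul_of_nonneg_left (ve_ge hd1) (by positivity))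
      (by norm_num)
  have h5 : (8 * rr d t) ^ d * (2 / Real.sqrt d) ^ d / 100 =
      (1 / 100) * (16 * (rr d t / Real.sqrt d)) ^ d := by
    rw [← mul_pow]
    have : 8 * rr d t * (2 / Real.sqrt d) = 16 * (rr d t / Real.sqrt d) := by ring
    rw [this]; ring
  have h6 : (11 * (rr d t / Real.sqrt d)) ^ d =
      (11 / 16) ^ d * (16 * (rr d t / Real.sqrt d)) ^ d := by
    rw [← mul_pow]; congr 1; ring
  have h7 : ((11 : ℝ) / 16) ^ d ≤ 1 / 100 := by
    calc ((11 : ℝ) / 16) ^ d ≤ (11 / 16) ^ 20 :=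
          pow_le_pow_of_le_one (by norm_num) (by norm_num) (le_trans (by norm_num) hd)
      _ ≤ 1 / 100 := by norm_num
  rw [h1, h3]
  refine (pow_le_pow_left₀ (by positivity) h2 d).trans ?_
  rw [h6]
  refine le_trans ?_ h4
  rw [h5]
  exact mul_le_mul_of_nonneg_right h7 (by positivity)

/-- the corners of a cube -/
def sg (d k : ℕ) (κ : ℝ) : Fin d → ℝ := fun i => if k.testBit i then -κ else κ

lemma esq_sg (k : ℕ) (κ : ℝ) : esq (sg d k κ) = d * κ ^ 2 := by
  unfold esq sg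
  have h : ∀ i : Fin d, (if k.testBit i then -κ else κ) ^ 2 = κ ^ 2 := by
    intro i
    split_ifs <;> ring
  simp only [h, Finset.sum_const, Finset.card_univ, Fintype.card_fin, nsmul_eq_mul]

lemma abs_sg (k : ℕ) {κ : ℝ} (hκ : 0 ≤ κ) (i : Fin d) : |sg d k κ i| = κ := by
  unfold sg
  split_ifs
  · rw [abs_neg, abs_of_nonneg hκ]
  · exact abs_of_nonneg hκ

/-- clearing one bit -/
lemma exists_pred {k : ℕ} (hk : k < 2 ^ d) (hk0 : k ≠ 0) {κ : ℝ} (hκ : 0 ≤ κ) :
    ∃ k' < k, dst (pr (sg d k κ)) (pr (sg d k' κ)) ≤ 2 * κ := by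
  obtain ⟨m, hm⟩ := Nat.exists_testBit_of_ne_zero hk0
  have hmd : m < d := by
    by_contra hcon
    rw [not_lt] at hcon
    have := Nat.testBit_lt_two_pow (x := k) (i := m)
      (hk.trans_le (Nat.pow_le_pow_right (by norm_num) hcon))
    rw [this] at hm
    exact absurd hm (by simp)
  have hb : ∀ j, (k ^^^ 2 ^ m).testBit j = (if j = m then false else k.testBit j) := by
    intro j
    rw [Nat.testBit_xor, Nat.testBit_two_pow]
    by_cases h : j = m
    · subst h
      simp [hm]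
    · simp [h, Ne.symm h]
  refine ⟨k ^^^ 2 ^ m, ?_, ?_⟩
  · refine Nat.lt_of_testBit m ?_ hm ?_
    · rw [hb]; simp
    · intro j hj
      rw [hb, if_neg (by omega)]
  · refine (dst_pr_le _ _).trans ?_
    have h1 : esq (sg d k κ - sg d (k ^^^ 2 ^ m) κ) = (2 * κ) ^ 2 := by
      unfold esq
      rw [Finset.sum_eq_single (⟨m, hmd⟩ : Fin d)]
      · simp only [Pi.sub_apply, sg, hb]
        simp [hm]
        ring
      · intro j _ hj
        have hjm : (j : ℕ) ≠ m := fun h => hj (Fin.ext h)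
        simp only [Pi.sub_apply, sg, hb, if_neg hjm]
        ring
      · intro h
        exact absurd (Finset.mem_univ _) h
    rw [h1, Real.sqrt_sq (by positivity)]

/-- the far part of the cell is small -/
lemma W_le (hd : 0 < d) {x : ℕ → Torus d} {t : ℕ} (ht : 2 ^ d < t) {r κ τ ε : ℝ}
    (hr : 0 < r) (hr' : r ≤ 1 / 32) (hrr : r = rr d t)
    (hκ : κ * Real.sqrt d = 2 * r) (hτ : τ * Real.sqrt d = 3 / 4 * r) (hτ' : τ ≤ 1 / 2)
    (hε : ε * (4 * Real.sqrt d) ≤ r ^ 2)
    (h1 : ∀ k < 2 ^ d, dst (x (k + 1)) (pr (sg d k κ)) ≤ ε)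
    (h3 : dst (x t) (pr fun _ => -τ) ≤ ε) :
    W x t ≤ volume {a : Fin d → ℝ | ∑ i, |a i| ≤ 2 * rr d t * Real.sqrt d} := by
  have hd' : (0 : ℝ) < d := by exact_mod_cast hd
  have hq : 0 < Real.sqrt d := Real.sqrt_pos.mpr hd'
  have hq2 : Real.sqrt d * Real.sqrt d = d := Real.mul_self_sqrt hd'.le
  have hκ0 : 0 < κ := lt_of_mul_lt_mul_right (by rw [zero_mul, hκ]; positivity) hq.le
  have hτ0 : 0 < τ := lt_of_mul_lt_mul_right (by rw [zero_mul, hτ]; positivity) hq.le
  unfold W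
  have hm : MeasurableSet {w : Torus d | 8 * rr d t < dst w (x t) ∧
      ∀ i < t, dst w (x t) < dst w (x i)} := by
    have : {w : Torus d | 8 * rr d t < dst w (x t) ∧ ∀ i < t, dst w (x t) < dst w (x i)} =
        {w | 8 * rr d t < dst w (x t)} ∩ ⋂ i : ℕ, ⋂ _ : i < t,
          {w | dst w (x t) < dst w (x i)} := by
      ext w
      simp only [Set.mem_ofPred_eq, Set.mem_inter_iff, Set.mem_iInter]
    rw [this]
    exact (measurableSet_lt measurable_const (meas_dst measurable_id measurable_const)).inter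
      (MeasurableSet.iInter fun i => MeasurableSet.iInter fun _ =>
        measurableSet_lt (meas_dst measurable_id measurable_const)
          (meas_dst measurable_id measurable_const))
  rw [vol_lift hm]
  refine measure_mono ?_
  rintro a ⟨⟨-, ha⟩, hbox⟩
  rw [Set.mem_ofPred_eq]
  by_contra hcon
  rw [not_le, ← hrr] at hcon
  have habs := mem_box_abs hbox
  set k : ℕ := Nat.ofBits (fun i : Fin d => decide (a i < 0)) with hk
  have hklt : k < 2 ^ d := Nat.ofBits_lt_two_pow _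
  have hkb : ∀ i : Fin d, k.testBit i = decide (a i < 0) := fun i =>
    Nat.testBit_ofBits_lt _ _ i.2
  have h4 := ha (k + 1) (by omega)
  have h5 := h1 k hklt
  have h6 := dst_triangle (pr a) (x t) (pr fun _ => -τ)
  have h7 := dst_triangle (pr a) (pr (sg d k κ)) (x (k + 1))
  rw [dst_comm (pr (sg d k κ))] at h7
  have h8 : dst (pr a) (pr fun _ => -τ) < dst (pr a) (pr (sg d k κ)) + 2 * ε := by linarith
  -- the upper bound
  set A : ℝ := ∑ i, (|a i| - τ) ^ 2 with hA
  set B : ℝ := ∑ i, (|a i| - κ) ^ 2 with hB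
  have hBnn : 0 ≤ B := Finset.sum_nonneg fun i _ => sq_nonneg _
  have hAnn : 0 ≤ A := Finset.sum_nonneg fun i _ => sq_nonneg _
  have h9 : dst (pr a) (pr (sg d k κ)) ≤ Real.sqrt B := by
    refine (dst_pr_le _ _).trans (le_of_eq ?_)
    congr 1
    unfold esq
    rw [hB]
    refine Finset.sum_congr rfl fun i _ => ?_
    rw [Pi.sub_apply, sg, hkb i]
    by_cases hai : a i < 0
    · rw [abs_of_neg hai]
      simp only [hai, decide_true, if_true]
      ring
    · rw [abs_of_nonneg (not_lt.mp hai)]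
      simp only [hai, decide_false, Bool.false_eq_true, if_false]
  -- the lower bound
  have h10 : Real.sqrt A ≤ dst (pr a) (pr fun _ => -τ) := by
    unfold dst
    refine Real.sqrt_le_sqrt (Finset.sum_le_sum fun i _ => ?_)
    have e1 : ‖((a i : ℝ) : UnitAddCircle)‖ = |a i| := norm_coe (habs i)
    have e2 : ‖((-τ : ℝ) : UnitAddCircle)‖ = τ := by
      rw [norm_coe (by rw [abs_neg, abs_of_pos hτ0]; exact hτ'), abs_neg, abs_of_pos hτ0]
    have e3 := abs_norm_sub_norm_le ((a i : ℝ) : UnitAddCircle) ((-τ : ℝ) : UnitAddCircle)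
    rw [e1, e2] at e3
    rw [← sq_abs (|a i| - τ)]
    exact pow_le_pow_left₀ (abs_nonneg _) e3 2
  have h11 : Real.sqrt A < Real.sqrt B + 2 * ε := by linarith
  have h12 : A - B = 2 * (κ - τ) * (∑ i, |a i|) - d * (κ ^ 2 - τ ^ 2) := by
    have e1 : A - B = ∑ i, (2 * (κ - τ) * |a i| - (κ ^ 2 - τ ^ 2)) := by
      rw [hA, hB, ← Finset.sum_sub_distrib]
      refine Finset.sum_congr rfl fun i _ => ?_
      ring
    rw [e1, Finset.sum_sub_distrib, ← Finset.mul_sum, Finset.sum_const, Finset.card_univ,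
      Fintype.card_fin, nsmul_eq_mul]
  have h13 : (κ - τ) * Real.sqrt d = 5 / 4 * r := by
    rw [sub_mul, hκ, hτ]; ring
  have h14 : d * (κ ^ 2 - τ ^ 2) = 55 / 16 * r ^ 2 := by
    have e1 : d * (κ ^ 2 - τ ^ 2) = (κ * Real.sqrt d) ^ 2 - (τ * Real.sqrt d) ^ 2 := by
      rw [mul_pow, mul_pow, Real.sq_sqrt hd'.le]; ring
    rw [e1, hκ, hτ]; ring
  have hκτ : 0 < κ - τ := by
    refine lt_of_mul_lt_mul_right ?_ hq.le
    rw [zero_mul, h13]; positivity
  have h15 : 5 * r ^ 2 ≤ 2 * (κ - τ) * (∑ i, |a i|) := by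
    have e1 : 2 * (κ - τ) * (2 * r * Real.sqrt d) = 5 * r ^ 2 := by
      calc 2 * (κ - τ) * (2 * r * Real.sqrt d) = 4 * r * ((κ - τ) * Real.sqrt d) := by ring
        _ = 5 * r ^ 2 := by rw [h13]; ring
    rw [← e1]
    exact mul_le_mul_of_nonneg_left hcon.le (by positivity)
  have h16 : B + r ^ 2 ≤ A := by nlinarith [sq_nonneg r]
  have h17 : A ≤ d / 4 := by
    have e1 : ∀ i ∈ Finset.univ, (|a i| - τ) ^ 2 ≤ (1 / 4 : ℝ) := by
      intro i _
      have e2 := habs i
      have e3 := abs_nonneg (a i)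
      have e4 : |(|a i| - τ)| ≤ 1 / 2 := by
        rw [abs_le]; constructor <;> linarith
      calc (|a i| - τ) ^ 2 = |(|a i| - τ)| ^ 2 := (sq_abs _).symm
        _ ≤ (1 / 2) ^ 2 := pow_le_pow_left₀ (abs_nonneg _) e4 2
        _ = 1 / 4 := by norm_num
    refine (Finset.sum_le_sum e1).trans (le_of_eq ?_)
    rw [Finset.sum_const, Finset.card_univ, Fintype.card_fin, nsmul_eq_mul]
    ring
  have h18 : Real.sqrt A ≤ Real.sqrt d / 2 := by
    rw [Real.sqrt_le_left (by positivity), div_pow, Real.sq_sqrt hd'.le]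
    linarith
  have h19 : Real.sqrt B ≤ Real.sqrt A := Real.sqrt_le_sqrt (by nlinarith [sq_nonneg r])
  have h20 : Real.sqrt A * Real.sqrt A = A := Real.mul_self_sqrt hAnn
  have h21 : Real.sqrt B * Real.sqrt B = B := Real.mul_self_sqrt hBnn
  have h22 := Real.sqrt_nonneg A
  have h23 := Real.sqrt_nonneg B
  have h24 : (Real.sqrt A - Real.sqrt B) * (Real.sqrt A + Real.sqrt B) ≤
      2 * ε * Real.sqrt d := by
    have e1 : 0 ≤ Real.sqrt A - Real.sqrt B := by linarith
    have e2 : Real.sqrt A - Real.sqrt B ≤ 2 * ε := by linarith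
    have e3 : Real.sqrt A + Real.sqrt B ≤ Real.sqrt d := by linarith
    exact mul_le_mul e2 e3 (by positivity) (by linarith)
  nlinarith [sq_nonneg r, pow_pos hr 2]

end Pool.Agent.T6.H59.NN
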