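import Pool.Agent.T6.H59.NN.Rad

/-!
# The probability estimates of the induction step
-/

set_option autoImplicit false

namespace Pool.Agent.T6.H59.NN

open MeasureTheory
open scoped ENNReal

variable {d : ℕ}

/-- the law of the points -/
noncomputable abbrev P (d : ℕ) : Measure (ℕ → Torus d) := PP (volume : Measure (Torus d))

/-- good vertex `j` -/
def GE (d j : ℕ) : Set (ℕ → Torus d) := {x | Good x j}

/-- the factor from the forbidden regions -/
noncomputable def eta (d : ℕ) : ℝ≥0∞ := ENNReal.ofReal (Real.sqrt (1 - 1 / 16384) ^ d)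

/-- `x t` is in the ball -/
def BallE (d j t : ℕ) : Set (ℕ → Torus d) := {x | dst (x t) (x j) ≤ rr d t}

def ShellE (d j t : ℕ) : Set (ℕ → Torus d) := {x | rr d t / 2 ≤ dst (x t) (x j) ∧
  dst (x t) (x j) ≤ rr d t}

/-- no new point is nearer to `x s` than `x j` -/
def NewE (d j s : ℕ) : Set (ℕ → Torus d) :=
  {x | ∀ i ∈ Finset.Ioo j s, dst (x s) (x j) < dst (x s) (x i)}

def PL (d j t : ℕ) : Set (ℕ → Torus d) :=
  {x | ∃ q, IsParent x j q ∧ dst (x t) (x q) < dst (x j) (x q)}

def Near (d j s : ℕ) : Set (ℕ → Torus d) := {x | dst (x s) (x j) ≤ 8 * rr d j}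

def LensE (d j s t : ℕ) : Set (ℕ → Torus d) := {x | dst (x t) (x s) < dst (x j) (x s)}

def Far (d j s : ℕ) : Set (ℕ → Torus d) := {x | 8 * rr d j < dst (x s) (x j) ∧
  ∀ i < j, dst (x s) (x j) < dst (x s) (x i)}

def BadW (d t : ℕ) : Set (ℕ → Torus d) := {x | ¬ W x t ≤ ENNReal.ofReal (8 ^ d / 100 / t)}

/-! ### measurability of the events -/

lemma m_sf (j : ℕ) : Measurable fun q : (ℕ → Torus d) × Torus d => dst q.2 (q.1 j) :=
  meas_dst measurable_snd ((measurable_pi_apply j).comp measurable_fst)

lemma m_fs (j : ℕ) : Measurable fun q : (ℕ → Torus d) × Torus d => dst (q.1 j) q.2 :=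
  meas_dst ((measurable_pi_apply j).comp measurable_fst) measurable_snd

lemma m_GE (j : ℕ) : MeasurableSet (GE d j) := measurableSet_Good j

lemma m_ball (j t : ℕ) : MeasurableSet (BallE d j t) :=
  measurableSet_le (measurable_dst_eval _ _) measurable_const

lemma m_shell (j t : ℕ) : MeasurableSet (ShellE d j t) :=
  (measurableSet_le measurable_const (measurable_dst_eval _ _)).inter
    (measurableSet_le (measurable_dst_eval _ _) measurable_const)

lemma m_new (j s : ℕ) : MeasurableSet (NewE d j s) := by
  have : NewE d j s = ⋂ i ∈ Finset.Ioo j s, {x | dst (x s) (x j) < dst (x s) (x i)} := by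
    ext x; simp [NewE]
  rw [this]
  exact Finset.measurableSet_biInter _ fun i _ =>
    measurableSet_lt (measurable_dst_eval _ _) (measurable_dst_eval _ _)

lemma m_near (j s : ℕ) : MeasurableSet (Near d j s) :=
  measurableSet_le (measurable_dst_eval _ _) measurable_const

lemma m_lens (j s t : ℕ) : MeasurableSet (LensE d j s t) :=
  measurableSet_lt (measurable_dst_eval _ _) (measurable_dst_eval _ _)

lemma m_far (j s : ℕ) : MeasurableSet (Far d j s) := by
  have : Far d j s = {x | 8 * rr d j < dst (x s) (x j)} ∩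
      ⋂ i : ℕ, ⋂ _ : i < j, {x | dst (x s) (x j) < dst (x s) (x i)} := by
    ext x
    simp only [Far, Set.mem_ofPred_eq, Set.mem_inter_iff, Set.mem_iInter]
  rw [this]
  exact (measurableSet_lt measurable_const (measurable_dst_eval _ _)).inter
    (MeasurableSet.iInter fun i => MeasurableSet.iInter fun _ =>
      measurableSet_lt (measurable_dst_eval _ _) (measurable_dst_eval _ _))

lemma m_badW (t : ℕ) : MeasurableSet (BadW d t) :=
  (measurableSet_le (measurable_W t) measurable_const).compl

/-! ### independence of the events of a coordinate -/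

lemma i_GE {j s : ℕ} (h : j < s) : Indep s (GE d j) := Good_indep h

lemma i_dst {i j t : ℕ} (hi : i ≠ t) (hj : j ≠ t) (x : ℕ → Torus d) (y : Torus d) :
    dst (Function.update x t y i) (Function.update x t y j) = dst (x i) (x j) := by
  rw [Function.update_of_ne hi, Function.update_of_ne hj]

lemma i_ball {j t s : ℕ} (h1 : j ≠ s) (h2 : t ≠ s) : Indep s (BallE d j t) := fun x y => by
  simp only [BallE, Set.mem_ofPred_eq, i_dst h2 h1]

lemma i_shell {j t s : ℕ} (h1 : j ≠ s) (h2 : t ≠ s) : Indep s (ShellE d j t) := fun x y => by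
  simp only [ShellE, Set.mem_ofPred_eq, i_dst h2 h1]

lemma i_new {j s t : ℕ} (h1 : j < t) (h : s < t) : Indep t (NewE d j s) := fun x y => by
  simp only [NewE, Set.mem_ofPred_eq]
  refine forall_congr' fun i => forall_congr' fun hi => ?_
  have := (Finset.mem_Ioo.mp hi).2
  rw [i_dst (by omega) (by omega), i_dst (by omega) (by omega)]

lemma i_near {j s t : ℕ} (h1 : j ≠ t) (h2 : s ≠ t) : Indep t (Near d j s) := fun x y => by
  simp only [Near, Set.mem_ofPred_eq, i_dst h2 h1]

lemma i_far {j s t : ℕ} (h1 : j < t) (h2 : s ≠ t) : Indep t (Far d j s) := fun x y => by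
  simp only [Far, Set.mem_ofPred_eq, i_dst h2 h1.ne]
  refine and_congr Iff.rfl (forall_congr' fun i => forall_congr' fun hi => ?_)
  rw [i_dst h2 (by omega)]

/-! ### the estimates -/

variable (hd : 0 < d) {j t : ℕ} (hj : 0 < j) (hjt : j < t)

section A

include hd hj hjt

lemma est_shell (hsm : rr d t ≤ 1 / 4) :
    (V d (rr d t) - V d (rr d t / 2)) * P d (GE d j) ≤ P d (GE d j ∩ ShellE d j t) := by
  have h := le_meas_upd (μ := (volume : Measure (Torus d))) t (m_GE j) (i_GE hjt)
    (R := fun x => {y : Torus d | rr d t / 2 ≤ dst y (x j) ∧ dst y (x j) ≤ rr d t}) ?_ ?_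
    (c := V d (rr d t) - V d (rr d t / 2)) ?_
  · exact h
  · have h1 : Measurable fun q : (ℕ → Torus d) × Torus d => dst q.2 (q.1 j) :=
      meas_dst measurable_snd ((measurable_pi_apply j).comp measurable_fst)
    exact (measurableSet_le measurable_const h1).inter (measurableSet_le h1 measurable_const)
  · intro x y
    simp only [Function.update_of_ne hjt.ne]
  · intro x _
    rw [tsub_le_iff_right]
    rw [← vol_ball (x j) (rr d t), ← vol_ball (x j) (rr d t / 2)]
    refine (measure_mono ?_).trans (measure_union_le _ _)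
    intro y hy
    rcases le_total (rr d t / 2) (dst y (x j)) with h2 | h2
    · exact Or.inl ⟨h2, hy⟩
    · exact Or.inr h2

lemma est_A (hsm : rr d t ≤ 1 / 4) :
    (1 - V d (rr d t)) ^ (t - j - 1) * ((V d (rr d t) - V d (rr d t / 2)) * P d (GE d j)) ≤
      P d ((GE d j ∩ ShellE d j t) ∩ NewE d j t) := by
  refine le_trans (mul_le_mul_right (est_shell hd hj hjt hsm) _) ?_
  rw [← Nat.card_Ioo j t]
  refine le_meas_indep (μ := (volume : Measure (Torus d))) (Finset.Ioo j t)
    ((m_GE j).inter (m_shell j t)) ?_ (S := fun x => {z | dst (x t) (x j) < dst (x t) z}) ?_ ?_ ?_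
  · intro s hs
    have := Finset.mem_Ioo.mp hs
    exact (i_GE this.1).inter (i_shell (by omega) (by omega))
  · have h1 : Measurable fun q : (ℕ → Torus d) × Torus d => dst (q.1 t) (q.1 j) :=
      (measurable_dst_eval t j).comp measurable_fst
    have h2 : Measurable fun q : (ℕ → Torus d) × Torus d => dst (q.1 t) q.2 :=
      meas_dst ((measurable_pi_apply t).comp measurable_fst) measurable_snd
    exact measurableSet_lt h1 h2
  · intro x s hs y
    have := Finset.mem_Ioo.mp hs
    rw [Function.update_of_ne (by omega), Function.update_of_ne (by omega)]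
  · intro x hx
    rw [vol_gt]
    exact tsub_le_tsub_left (V_mono hx.2.2) _

lemma est_B1 (hsmj : rr d j ≤ 1 / 4) (hsm : rr d t ≤ 1 / 4) (hr : rr d j ≤ 64 * rr d t) :
    P d ((GE d j) ∩ (BallE d j t ∩ PL d j t)) ≤ eta d * V d (rr d t) * P d (GE d j) := by
  refine meas_upd_le (μ := (volume : Measure (Torus d))) t (m_GE j) (i_GE hjt)
    (R := fun x => {y : Torus d | dst y (x j) ≤ rr d t ∧
      ∃ q, IsParent x j q ∧ dst y (x q) < dst (x j) (x q)}) ?_ ?_ ?_
  · have h1 : ∀ q : ℕ, Measurable fun z : (ℕ → Torus d) × Torus d => dst z.2 (z.1 q) := fun q =>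
      meas_dst measurable_snd ((measurable_pi_apply q).comp measurable_fst)
    refine (measurableSet_le (h1 j) measurable_const).inter ?_
    have : {z : (ℕ → Torus d) × Torus d | ∃ q, IsParent z.1 j q ∧
        dst z.2 (z.1 q) < dst (z.1 j) (z.1 q)} = ⋃ q : ℕ, ({z | IsParent z.1 j q} ∩
        {z | dst z.2 (z.1 q) < dst (z.1 j) (z.1 q)}) := by
      ext z
      simp only [Set.mem_ofPred_eq, Set.mem_iUnion, Set.mem_inter_iff]
    have h2 : MeasurableSet {z : (ℕ → Torus d) × Torus d | ∃ q, IsParent z.1 j q ∧
        dst z.2 (z.1 q) < dst (z.1 j) (z.1 q)} := by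
      rw [this]
      exact MeasurableSet.iUnion fun q => (measurable_fst (measurableSet_isParent j q)).inter
        (measurableSet_lt (h1 q) ((measurable_dst_eval j q).comp measurable_fst))
    exact h2
  · intro x y
    ext z
    simp only [Set.mem_ofPred_eq, Function.update_of_ne hjt.ne]
    refine and_congr Iff.rfl (exists_congr fun q => ?_)
    rw [isParent_congr (x := Function.update x t y) (y := x) (i := j) (fun k hk => by
      rw [Function.update_of_ne (by omega)]) q]
    refine and_congr_right fun hq => ?_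
    have := hq.1
    rw [Function.update_of_ne (by omega)]
  · intro x hx
    obtain ⟨-, ⟨q, hq, -, hq2⟩, -⟩ := hx
    have hinc : {y : Torus d | dst y (x j) ≤ rr d t ∧
        ∃ q, IsParent x j q ∧ dst y (x q) < dst (x j) (x q)} ⊆
        {y : Torus d | dst y (x j) ≤ rr d t ∧ dst y (x q) < dst (x j) (x q)} := by
      rintro y ⟨hy, q', hq', hy'⟩
      rw [hq'.unique hq] at hy'
      exact ⟨hy, hy'⟩
    refine (measure_mono hinc).trans ?_
    exact lens (x j) (x q) (rr_pos hd (hj.trans hjt)) hsm (hq2.trans hsmj) (hq2.trans hr)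

/-- number of near children, first bound -/
lemma est_C1 {s : ℕ} (hjs : j < s) :
    P d (GE d j ∩ (Near d j s ∩ NewE d j s)) ≤ V d (8 * rr d j) * P d (GE d j) := by
  refine (measure_mono (t := GE d j ∩ Near d j s) fun x hx => ⟨hx.1, hx.2.1⟩).trans ?_
  refine meas_upd_le (μ := (volume : Measure (Torus d))) s (m_GE j) (i_GE hjs)
    (R := fun x => {y : Torus d | dst y (x j) ≤ 8 * rr d j}) ?_ ?_ ?_
  · exact measurableSet_le (m_sf j) measurable_const
  · intro x y
    simp only [Function.update_of_ne hjs.ne]
  · intro x _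
    exact (vol_ball _ _).le

/-- number of near children, second bound -/
lemma est_C2 {s : ℕ} (hjs : j < s) :
    P d (GE d j ∩ (Near d j s ∩ NewE d j s)) ≤ ((s - j : ℕ) : ℝ≥0∞)⁻¹ * P d (GE d j) := by
  refine (measure_mono (t := GE d j ∩ NewE d j s) fun x hx => ⟨hx.1, hx.2.2⟩).trans ?_
  have h1 : Measurable fun q : (ℕ → Torus d) × Torus d => dst (q.1 s) (q.1 j) :=
    (measurable_dst_eval s j).comp measurable_fst
  have h2 : Measurable fun q : (ℕ → Torus d) × Torus d => dst (q.1 s) q.2 :=
    meas_dst ((measurable_pi_apply s).comp measurable_fst) measurable_snd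
  have h3 : MeasurableSet {q : (ℕ → Torus d) × Torus d | q.2 ∈
      {z | dst (q.1 s) (q.1 j) < dst (q.1 s) z}} := measurableSet_lt h1 h2
  have e1 := meas_indep (μ := (volume : Measure (Torus d))) (Finset.Ioo j s)
    (m_GE j) (fun i hi => i_GE (Finset.mem_Ioo.mp hi).1)
    (S := fun x => {z | dst (x s) (x j) < dst (x s) z}) h3 (fun x i hi y => by
      have := Finset.mem_Ioo.mp hi
      rw [Function.update_of_ne (by omega), Function.update_of_ne (by omega)])
  have e0 : P d (GE d j ∩ NewE d j s) = P d (GE d j ∩ {x | ∀ i ∈ Finset.Ioo j s,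
    x i ∈ {z | dst (x s) (x j) < dst (x s) z}}) := rfl
  rw [e0, e1, Nat.card_Ioo, ← lintegral_indicator (m_GE j)]
  have hm : Measurable fun x : ℕ → Torus d =>
      volume {z | dst (x s) (x j) < dst (x s) z} := measurable_measure_prodMk_left h3
  rw [lintegral_upd _ s ((hm.pow_const _).indicator (m_GE j))]
  have h4 : ∀ x : ℕ → Torus d, ∫⁻ y, (GE d j).indicator
      (fun x => volume {z | dst (x s) (x j) < dst (x s) z} ^ (s - j - 1))
      (Function.update x s y) ≤ (GE d j).indicator (fun _ => ((s - j : ℕ) : ℝ≥0∞)⁻¹) x := by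
    intro x
    by_cases hx : x ∈ GE d j
    · rw [Set.indicator_of_mem hx]
      have h5 : ∀ y, (GE d j).indicator
          (fun x => volume {z | dst (x s) (x j) < dst (x s) z} ^ (s - j - 1))
          (Function.update x s y) = volume {z | dst y (x j) < dst y z} ^ (s - j - 1) := by
        intro y
        rw [Set.indicator_of_mem ((i_GE hjs x y).mpr hx), Function.update_self,
          Function.update_of_ne hjs.ne]
      simp_rw [h5]
      refine (tail_pow (x j) (s - j - 1)).trans (le_of_eq ?_)
      congr 1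
      have : s - j = (s - j - 1) + 1 := by omega
      conv_rhs => rw [this]
      push_cast
      rfl
    · have h5 : ∀ y, (GE d j).indicator
          (fun x => volume {z | dst (x s) (x j) < dst (x s) z} ^ (s - j - 1))
          (Function.update x s y) = 0 := by
        intro y
        rw [Set.indicator_of_notMem fun h => hx ((i_GE hjs x y).mp h)]
      simp_rw [h5]
      simp
  refine (lintegral_mono h4).trans ?_
  rw [lintegral_indicator_const (m_GE j)]

lemma est_B2 (hsmj : 8 * rr d j ≤ 1 / 4) (hsm : rr d t ≤ 1 / 4) (hr : 8 * rr d j ≤ 64 * rr d t)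
    {s : ℕ} (hjs : j < s) (hst : s < t) :
    P d ((GE d j ∩ (Near d j s ∩ NewE d j s)) ∩ (BallE d j t ∩ LensE d j s t)) ≤
      eta d * V d (rr d t) * P d (GE d j ∩ (Near d j s ∩ NewE d j s)) := by
  refine meas_upd_le (μ := (volume : Measure (Torus d))) t
    ((m_GE j).inter ((m_near j s).inter (m_new j s)))
    ((i_GE hjt).inter ((i_near hjt.ne hst.ne).inter (i_new hjt hst)))
    (R := fun x => {y : Torus d | dst y (x j) ≤ rr d t ∧ dst y (x s) < dst (x j) (x s)}) ?_ ?_ ?_
  · have h1 : ∀ q : ℕ, Measurable fun z : (ℕ → Torus d) × Torus d => dst z.2 (z.1 q) := fun q =>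
      meas_dst measurable_snd ((measurable_pi_apply q).comp measurable_fst)
    exact (measurableSet_le (h1 j) measurable_const).inter
      (measurableSet_lt (h1 s) ((measurable_dst_eval j s).comp measurable_fst))
  · intro x y
    rw [Function.update_of_ne hjt.ne, Function.update_of_ne hst.ne]
  · intro x hx
    have h2 : dst (x j) (x s) ≤ 8 * rr d j := by
      rw [dst_comm]; exact hx.2.1
    exact lens (x j) (x s) (rr_pos hd (hj.trans hjt)) hsm (h2.trans hsmj) (h2.trans hr)

lemma est_B3 {s : ℕ} (hjs : j < s) (hst : s < t) :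
    P d ((GE d j ∩ (Far d j s ∩ NewE d j s)) ∩ BallE d j t) ≤
      V d (rr d t) * ((1 - V d (8 * rr d j)) ^ (s - j - 1) *
        (ENNReal.ofReal (8 ^ d / 100 / j) * P d (GE d j))) := by
  -- resample `t`
  have e1 : P d ((GE d j ∩ (Far d j s ∩ NewE d j s)) ∩ BallE d j t) ≤
      V d (rr d t) * P d (GE d j ∩ (Far d j s ∩ NewE d j s)) := by
    refine meas_upd_le (μ := (volume : Measure (Torus d))) t
      ((m_GE j).inter ((m_far j s).inter (m_new j s)))
      ((i_GE hjt).inter ((i_far hjt hst.ne).inter (i_new hjt hst)))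
      (R := fun x => {y : Torus d | dst y (x j) ≤ rr d t}) ?_ ?_ ?_
    · exact measurableSet_le (m_sf j) measurable_const
    · intro x y
      rw [Function.update_of_ne hjt.ne]
    · intro x _
      exact (vol_ball _ _).le
  refine e1.trans (mul_le_mul_right ?_ _)
  -- the new points
  have e2 : P d (GE d j ∩ (Far d j s ∩ NewE d j s)) ≤
      (1 - V d (8 * rr d j)) ^ (s - j - 1) * P d (GE d j ∩ Far d j s) := by
    rw [← Set.inter_assoc, ← Nat.card_Ioo j s]
    refine meas_indep_le (μ := (volume : Measure (Torus d))) (Finset.Ioo j s)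
      ((m_GE j).inter (m_far j s)) ?_ (S := fun x => {z | dst (x s) (x j) < dst (x s) z}) ?_ ?_ ?_
    · intro i hi
      have := Finset.mem_Ioo.mp hi
      exact (i_GE this.1).inter (i_far this.1 (by omega))
    · have h1 : Measurable fun q : (ℕ → Torus d) × Torus d => dst (q.1 s) (q.1 j) :=
        (measurable_dst_eval s j).comp measurable_fst
      have h2 : Measurable fun q : (ℕ → Torus d) × Torus d => dst (q.1 s) q.2 :=
        meas_dst ((measurable_pi_apply s).comp measurable_fst) measurable_snd
      exact measurableSet_lt h1 h2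
    · intro x i hi y
      have := Finset.mem_Ioo.mp hi
      rw [Function.update_of_ne (by omega), Function.update_of_ne (by omega)]
    · intro x hx
      rw [vol_gt]
      exact tsub_le_tsub_left (V_mono (le_of_lt hx.2.1)) _
  refine e2.trans (mul_le_mul_right ?_ _)
  refine meas_upd_le (μ := (volume : Measure (Torus d))) s (m_GE j) (i_GE hjs)
    (R := fun x => {w : Torus d | 8 * rr d j < dst w (x j) ∧ ∀ i < j, dst w (x j) < dst w (x i)})
    ?_ ?_ ?_
  · have h1 : ∀ i : ℕ, Measurable fun q : (ℕ → Torus d) × Torus d => dst q.2 (q.1 i) := fun i =>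
      meas_dst measurable_snd ((measurable_pi_apply i).comp measurable_fst)
    have : {q : (ℕ → Torus d) × Torus d | q.2 ∈ {w : Torus d |
        8 * rr d j < dst w (q.1 j) ∧ ∀ i < j, dst w (q.1 j) < dst w (q.1 i)}} =
        {q | 8 * rr d j < dst q.2 (q.1 j)} ∩ ⋂ i : ℕ, ⋂ _ : i < j,
          {q | dst q.2 (q.1 j) < dst q.2 (q.1 i)} := by
      ext q
      simp only [Set.mem_ofPred_eq, Set.mem_inter_iff, Set.mem_iInter]
    rw [this]
    exact (measurableSet_lt measurable_const (h1 j)).inter (MeasurableSet.iInter fun i =>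
      MeasurableSet.iInter fun _ => measurableSet_lt (h1 j) (h1 i))
  · intro x y
    ext w
    simp only [Set.mem_ofPred_eq, Function.update_of_ne hjs.ne]
    refine and_congr Iff.rfl (forall_congr' fun i => forall_congr' fun hi => ?_)
    rw [Function.update_of_ne (by omega)]
  · intro x hx
    exact hx.2.2

lemma est_B4 :
    P d ((GE d j ∩ BallE d j t) ∩ BadW d t) ≤
      (ENNReal.ofReal (8 ^ d / 100 / t))⁻¹ * (((t - j : ℕ) : ℝ≥0∞)⁻¹ *
        (V d (rr d t) * P d (GE d j))) := by
  set c : ℝ≥0∞ := ENNReal.ofReal (8 ^ d / 100 / t) with hc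
  have ht : (0 : ℝ) < t := by exact_mod_cast hj.trans hjt
  have hc0 : c ≠ 0 := by
    rw [hc, Ne, ENNReal.ofReal_eq_zero, not_le]; positivity
  have hct : c ≠ ∞ := ENNReal.ofReal_ne_top
  set A : Set (ℕ → Torus d) := GE d j ∩ BallE d j t with hA
  have hAm : MeasurableSet A := (m_GE j).inter (m_ball j t)
  -- the probability of `A`
  have hPA : P d A ≤ V d (rr d t) * P d (GE d j) := by
    refine meas_upd_le (μ := (volume : Measure (Torus d))) t (m_GE j) (i_GE hjt)
      (R := fun x => {y : Torus d | dst y (x j) ≤ rr d t}) ?_ ?_ ?_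
    · exact measurableSet_le (m_sf j) measurable_const
    · intro x y
      rw [Function.update_of_ne hjt.ne]
    · intro x _
      exact (vol_ball _ _).le
  -- Markov
  have hM : c * P d (A ∩ BadW d t) ≤ ∫⁻ x in A, W x t ∂(P d) := by
    rw [← setLIntegral_const]
    refine le_trans (setLIntegral_mono' (g := fun x => W x t) (hAm.inter (m_badW t)) ?_) ?_
    · intro x hx
      exact (not_le.mp hx.2).le
    · exact lintegral_mono_set Set.inter_subset_left
  -- the expectation of `W`
  set S : Torus d → (ℕ → Torus d) → Set (Torus d) :=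
    fun w x => {z | dst w (x t) < dst w z} with hS
  have hWle : ∀ x : ℕ → Torus d, W x t ≤
      ∫⁻ w, Set.indicator {w | ∀ s ∈ Finset.Ioo j t, x s ∈ S w x} 1 w := by
    intro x
    have hm : MeasurableSet {w | ∀ s ∈ Finset.Ioo j t, x s ∈ S w x} := by
      have : {w | ∀ s ∈ Finset.Ioo j t, x s ∈ S w x} =
          ⋂ s ∈ Finset.Ioo j t, {w | dst w (x t) < dst w (x s)} := by
        ext w; simp [hS]
      rw [this]
      exact Finset.measurableSet_biInter _ fun s _ => measurableSet_lt
        (meas_dst measurable_id measurable_const) (meas_dst measurable_id measurable_const)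
    rw [lintegral_indicator_one hm]
    refine measure_mono fun w hw s hs => ?_
    exact hw.2 s (Finset.mem_Ioo.mp hs).2
  have hjm : Measurable fun q : (ℕ → Torus d) × Torus d =>
      Set.indicator {w | ∀ s ∈ Finset.Ioo j t, q.1 s ∈ S w q.1} (1 : Torus d → ℝ≥0∞) q.2 := by
    have h1 : ∀ i : ℕ, Measurable fun q : (ℕ → Torus d) × Torus d => dst q.2 (q.1 i) := fun i =>
      meas_dst measurable_snd ((measurable_pi_apply i).comp measurable_fst)
    have h2 : MeasurableSet {q : (ℕ → Torus d) × Torus d |
        ∀ s ∈ Finset.Ioo j t, q.1 s ∈ S q.2 q.1} := by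
      have : {q : (ℕ → Torus d) × Torus d | ∀ s ∈ Finset.Ioo j t, q.1 s ∈ S q.2 q.1} =
          ⋂ s ∈ Finset.Ioo j t, {q | dst q.2 (q.1 t) < dst q.2 (q.1 s)} := by
        ext w; simp [hS]
      rw [this]
      exact Finset.measurableSet_biInter _ fun s _ => measurableSet_lt (h1 t) (h1 s)
    have h3 := (measurable_one (α := ℝ≥0∞)).indicator h2
    exact h3
  have hexp : ∫⁻ x in A, W x t ∂(P d) ≤ ((t - j : ℕ) : ℝ≥0∞)⁻¹ * P d A := by
    refine (lintegral_mono fun x => hWle x).trans ?_
    rw [lintegral_lintegral_swap hjm.aemeasurable]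
    have h4 : ∀ w : Torus d, ∫⁻ x in A, Set.indicator {w | ∀ s ∈ Finset.Ioo j t, x s ∈ S w x}
        (1 : Torus d → ℝ≥0∞) w ∂(P d) = ∫⁻ x in A, volume (S w x) ^ (t - j - 1) ∂(P d) := by
      intro w
      have h3 : MeasurableSet {q : (ℕ → Torus d) × Torus d | q.2 ∈ S w q.1} := by
        have g1 : Measurable fun q : (ℕ → Torus d) × Torus d => dst w (q.1 t) :=
          meas_dst measurable_const ((measurable_pi_apply t).comp measurable_fst)
        have g2 : Measurable fun q : (ℕ → Torus d) × Torus d => dst w q.2 :=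
          meas_dst measurable_const measurable_snd
        exact measurableSet_lt g1 g2
      have e1 := meas_indep (μ := (volume : Measure (Torus d))) (Finset.Ioo j t)
        hAm (fun i hi => by
          have := Finset.mem_Ioo.mp hi
          exact (i_GE this.1).inter (i_ball (by omega) (by omega))) (S := S w) h3
        (fun x i hi y => by
          have := Finset.mem_Ioo.mp hi
          simp only [hS]
          rw [Function.update_of_ne (by omega)])
      rw [Nat.card_Ioo] at e1
      rw [← e1]
      have h5 : ∀ x : ℕ → Torus d, Set.indicator {w | ∀ s ∈ Finset.Ioo j t, x s ∈ S w x}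
          (1 : Torus d → ℝ≥0∞) w =
          Set.indicator {x : ℕ → Torus d | ∀ s ∈ Finset.Ioo j t, x s ∈ S w x} 1 x := by
        intro x
        by_cases hx : ∀ s ∈ Finset.Ioo j t, x s ∈ S w x
        · rw [Set.indicator_of_mem (by exact hx), Set.indicator_of_mem (by exact hx)]
          rfl
        · rw [Set.indicator_of_notMem (by exact hx), Set.indicator_of_notMem (by exact hx)]
      simp_rw [h5]
      have h6 : MeasurableSet {x : ℕ → Torus d | ∀ s ∈ Finset.Ioo j t, x s ∈ S w x} := by
        have : {x : ℕ → Torus d | ∀ s ∈ Finset.Ioo j t, x s ∈ S w x} =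
            ⋂ s ∈ Finset.Ioo j t, {x | dst w (x t) < dst w (x s)} := by
          ext x; simp [hS]
        rw [this]
        exact Finset.measurableSet_biInter _ fun s _ => measurableSet_lt
          (meas_dst measurable_const (measurable_pi_apply t))
          (meas_dst measurable_const (measurable_pi_apply s))
      rw [lintegral_indicator_one h6, Measure.restrict_apply h6, Set.inter_comm]
    rw [lintegral_congr h4]
    have hjm2 : Measurable fun q : Torus d × (ℕ → Torus d) =>
        volume (S q.1 q.2) ^ (t - j - 1) := by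
      have h1 : Measurable fun q : Torus d × (ℕ → Torus d) => volume (S q.1 q.2) := by
        refine measurable_measure_prodMk_left
          (s := {q : (Torus d × (ℕ → Torus d)) × Torus d | q.2 ∈ S q.1.1 q.1.2}) ?_
        have g1 : Measurable fun q : (Torus d × (ℕ → Torus d)) × Torus d =>
            dst q.1.1 (q.1.2 t) := meas_dst (measurable_fst.comp measurable_fst)
          ((measurable_pi_apply t).comp (measurable_snd.comp measurable_fst))
        have g2 : Measurable fun q : (Torus d × (ℕ → Torus d)) × Torus d => dst q.1.1 q.2 :=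
          meas_dst (measurable_fst.comp measurable_fst) measurable_snd
        exact measurableSet_lt g1 g2
      exact h1.pow_const _
    rw [lintegral_lintegral_swap hjm2.aemeasurable, ← setLIntegral_const]
    refine lintegral_mono fun x => ?_
    refine (tail_pow (x t) (t - j - 1)).trans (le_of_eq ?_)
    congr 1
    have : t - j = (t - j - 1) + 1 := by omega
    conv_rhs => rw [this]
    push_cast
    rfl
  -- conclusion
  have h7 : c * P d (A ∩ BadW d t) ≤ ((t - j : ℕ) : ℝ≥0∞)⁻¹ * (V d (rr d t) * P d (GE d j)) :=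
    (hM.trans hexp).trans (mul_le_mul_right hPA _)
  rw [← ENNReal.div_eq_inv_mul, ENNReal.le_div_iff_mul_le (Or.inl hc0) (Or.inl hct), mul_comm]
  exact h7

end A

end Pool.Agent.T6.H59.NN
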