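import Pool.Agent.T6.H59.NN.Base
import Pool.Agent.T6.H59.NN.Step

/-!
# A good vertex exists with positive probability
-/

set_option autoImplicit false

namespace Pool.Agent.T6.H59.NN

open MeasureTheory
open scoped ENNReal

variable {d : ℕ}

lemma pr_sg_zero_dst {k : ℕ} {κ : ℝ} (hκ : 0 ≤ κ) (hκ' : κ ≤ 1 / 2) :
    dst (pr (sg d k κ)) 0 = κ * Real.sqrt d := by
  rw [dst_pr_zero (fun i => by rw [abs_sg k hκ i]; exact hκ'), esq_sg, mul_comm (d : ℝ),
    Real.sqrt_mul (sq_nonneg κ), Real.sqrt_sq hκ]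

lemma esq_const (c : ℝ) : esq (fun _ : Fin d => c) = d * c ^ 2 := by
  unfold esq
  simp only [Finset.sum_const, Finset.card_univ, Fintype.card_fin, nsmul_eq_mul]

lemma sg_zero (κ : ℝ) : sg d 0 κ = fun _ => κ := by
  funext i
  simp [sg]

lemma base_good (hd : 2 ^ 20 ≤ d) {x : ℕ → Torus d} {t : ℕ} (ht : 2 ^ d < t) {r κ τ ε : ℝ}
    (hr : 0 < r) (hr' : r ≤ 1 / 32) (hrr : r = rr d t)
    (hκ : κ * Real.sqrt d = 2 * r) (hτ : τ * Real.sqrt d = 3 / 4 * r)
    (hε0 : 0 < ε) (hε : ε * (4 * Real.sqrt d) ≤ r ^ 2)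
    (h0 : dst (x 0) 0 ≤ ε)
    (h1 : ∀ k < 2 ^ d, dst (x (k + 1)) (pr (sg d k κ)) ≤ ε)
    (h2 : ∀ i, 2 ^ d < i → i < t → dst (x i) (pr (sg d 0 κ)) ≤ ε)
    (h3 : dst (x t) (pr fun _ => -τ) ≤ ε) : Good x t := by
  have hd1 : 0 < d := lt_of_lt_of_le (by norm_num) hd
  have hd' : (0 : ℝ) < d := by exact_mod_cast hd1
  have hq : (1024 : ℝ) ≤ Real.sqrt d := by
    refine Real.le_sqrt_of_sq_le ?_
    have h1 : ((2 ^ 20 : ℕ) : ℝ) ≤ d := by exact_mod_cast hd
    have h2 : ((2 ^ 20 : ℕ) : ℝ) = 1024 ^ 2 := by norm_num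
    linarith
  have hq0 : 0 < Real.sqrt d := by linarith
  have hκ0 : 0 < κ := lt_of_mul_lt_mul_right (by rw [zero_mul, hκ]; positivity) hq0.le
  have hτ0 : 0 < τ := lt_of_mul_lt_mul_right (by rw [zero_mul, hτ]; positivity) hq0.le
  have hκs : κ ≤ r / 512 := by nlinarith
  have hτs : τ ≤ r / 512 := by nlinarith
  have hεs : ε ≤ r / 1000 := by
    have e1 : ε * 4096 ≤ ε * (4 * Real.sqrt d) := mul_le_mul_of_nonneg_left (by linarith) hε0.le
    have e2 : r ^ 2 ≤ r * (1 / 32) := by rw [sq]; exact mul_le_mul_of_nonneg_left hr' hr.le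
    linarith
  have hpd : 0 < 2 ^ d := by positivity
  -- all the middle vertices are at distance about `2 r` from the origin
  have hc : ∀ i, 0 < i → i < t → ∃ k, dst (x i) (pr (sg d k κ)) ≤ ε := by
    intro i hi hit
    rcases le_or_gt i (2 ^ d) with h | h
    · refine ⟨i - 1, ?_⟩
      have := h1 (i - 1) (by omega)
      rwa [Nat.sub_add_cancel hi] at this
    · exact ⟨0, h2 i h hit⟩
  have f1 : ∀ i, 0 < i → i < t → 2 * r - 2 * ε ≤ dst (x i) (x 0) := by
    intro i hi hit
    obtain ⟨k, hk⟩ := hc i hi hit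
    have e1 := pr_sg_zero_dst (d := d) (k := k) hκ0.le (by linarith)
    rw [hκ] at e1
    have e2 := dst_triangle (pr (sg d k κ)) (x i) 0
    have e3 := dst_triangle (x i) (x 0) 0
    rw [dst_comm (pr (sg d k κ)) (x i)] at e2
    linarith
  have ht1 : 1 < t := by omega
  have g1 : dst (x 1) (pr (sg d 0 κ)) ≤ ε := h1 0 hpd
  have f2 : dst (x 0) (x 1) ≤ 2 * r + 2 * ε := by
    have e1 := pr_sg_zero_dst (d := d) (k := 0) hκ0.le (by linarith)
    rw [hκ] at e1
    have e2 := dst_triangle (x 0) 0 (x 1)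
    have e3 := dst_triangle 0 (pr (sg d 0 κ)) (x 1)
    rw [dst_comm (pr (sg d 0 κ)) (x 1), dst_comm 0 (pr (sg d 0 κ))] at e3
    linarith
  have f3 : ∀ i, 1 < i → i < t → ∃ i', 0 < i' ∧ i' < i ∧ dst (x i) (x i') ≤ r / 2 := by
    intro i hi hit
    rcases le_or_gt i (2 ^ d) with h | h
    · obtain ⟨k', hk', hk''⟩ := exists_pred (d := d) (k := i - 1) (by omega) (by omega) hκ0.le
      refine ⟨k' + 1, by omega, by omega, ?_⟩
      have e1 := h1 (i - 1) (by omega)
      rw [Nat.sub_add_cancel (by omega)] at e1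
      have e2 := h1 k' (by omega)
      have e3 := dst_triangle (x i) (pr (sg d (i - 1) κ)) (x (k' + 1))
      have e4 := dst_triangle (pr (sg d (i - 1) κ)) (pr (sg d k' κ)) (x (k' + 1))
      rw [dst_comm (pr (sg d k' κ)) (x (k' + 1))] at e4
      linarith
    · refine ⟨1, one_pos, hi, ?_⟩
      have e1 := h2 i h hit
      have e2 := dst_triangle (x i) (pr (sg d 0 κ)) (x 1)
      rw [dst_comm (pr (sg d 0 κ)) (x 1)] at e2
      linarith
  have f4a : dst (pr fun _ : Fin d => -τ) 0 = 3 / 4 * r := by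
    rw [dst_pr_zero (fun i => by rw [abs_neg, abs_of_pos hτ0]; linarith), esq_const,
      mul_comm (d : ℝ), Real.sqrt_mul (sq_nonneg _), neg_sq, Real.sqrt_sq hτ0.le, hτ]
  have f4 : dst (x t) (x 0) ≤ 3 / 4 * r + 2 * ε := by
    have e1 := dst_triangle (x t) (pr fun _ : Fin d => -τ) (x 0)
    have e2 := dst_triangle (pr fun _ : Fin d => -τ) 0 (x 0)
    rw [dst_comm 0 (x 0)] at e2
    linarith
  have f4' : 3 / 4 * r - 2 * ε ≤ dst (x t) (x 0) := by
    have e1 := dst_triangle (pr fun _ : Fin d => -τ) (x t) 0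
    have e2 := dst_triangle (x t) (x 0) 0
    rw [dst_comm (pr fun _ : Fin d => -τ) (x t)] at e1
    linarith
  have f5 : 11 / 4 * r - 2 * ε ≤ dst (x t) (x 1) := by
    have e0 : dst (pr fun _ : Fin d => -τ) (pr (sg d 0 κ)) = 11 / 4 * r := by
      have h5 : ∀ i : Fin d, |(fun _ : Fin d => -τ) i - sg d 0 κ i| ≤ 1 / 2 := by
        intro i
        rw [sg_zero]
        rw [abs_le]
        constructor <;> simp only <;> linarith
      rw [dst_pr h5, sg_zero]
      have h6 : ((fun _ : Fin d => -τ) - fun _ : Fin d => κ) = fun _ : Fin d => -(τ + κ) := by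
        funext i
        simp only [Pi.sub_apply]
        ring
      rw [h6, esq_const, mul_comm (d : ℝ), Real.sqrt_mul (sq_nonneg _), neg_sq,
        Real.sqrt_sq (by linarith), add_mul, hκ, hτ]
      ring
    have e1 := dst_triangle (pr fun _ : Fin d => -τ) (x t) (pr (sg d 0 κ))
    have e2 := dst_triangle (x t) (x 1) (pr (sg d 0 κ))
    rw [dst_comm (pr fun _ : Fin d => -τ) (x t)] at e1
    linarith
  -- the parent of `t` is `0`
  have hpar : IsParent x t 0 := by
    refine ⟨by omega, fun k hk hk0 => ?_⟩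
    have e1 := f1 k (Nat.pos_of_ne_zero hk0) hk
    have e2 := dst_triangle (x k) (x t) (x 0)
    rw [dst_comm (x k) (x t)] at e2
    linarith
  -- the only earlier child of `0` is `1`
  have hchild : ∀ q, q < t → IsParent x q 0 → q = 1 := by
    intro q hqt hq
    by_contra hne
    have hq1 : 1 < q := by
      have := hq.1
      omega
    obtain ⟨i', hi', hiq, hle⟩ := f3 q hq1 hqt
    have e1 := hq.2 i' hiq (by omega)
    have e2 := f1 q (by omega) hqt
    linarith
  refine ⟨(unc_zero x).step hpar ?_, ⟨0, hpar, ?_, ?_⟩, ?_⟩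
  · rintro ⟨p, -, q, hqt, hp, hpq, hF1, hF2⟩
    obtain rfl := hp.unique hpar
    rcases hpq with h | h
    · have := h.1
      omega
    · obtain rfl := hchild q hqt h
      linarith
  · rw [← hrr]; linarith
  · rw [← hrr]; linarith
  · refine (W_le hd1 ht hr hr' hrr hκ hτ (by linarith) hε h1 h3).trans ?_
    exact cross_le hd (by omega)

/-- the centres of the configuration -/
noncomputable def cc (d t : ℕ) (κ τ : ℝ) (i : ℕ) : Torus d :=
  if i = 0 then 0 else if i = t then pr (fun _ => -τ) else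
    if i ≤ 2 ^ d then pr (sg d (i - 1) κ) else pr (sg d 0 κ)

lemma base_pos (hd : 2 ^ 20 ≤ d) {t : ℕ} (ht : 2 ^ d < t) (hr' : rr d t ≤ 1 / 32) :
    0 < P d (GE d t) := by
  have hd1 : 0 < d := lt_of_lt_of_le (by norm_num) hd
  have hd' : (0 : ℝ) < d := by exact_mod_cast hd1
  have hq0 : 0 < Real.sqrt d := Real.sqrt_pos.mpr hd'
  have hq1 : 1 ≤ Real.sqrt d := by
    rw [Real.one_le_sqrt]
    exact_mod_cast hd1
  have hr : 0 < rr d t := rr_pos hd1 ((Nat.zero_le _).trans_lt ht)
  set r := rr d t with hrr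
  set κ : ℝ := 2 * r / Real.sqrt d with hκ
  set τ : ℝ := 3 / 4 * r / Real.sqrt d with hτ
  set ε : ℝ := r ^ 2 / (4 * Real.sqrt d) with hε
  have hε0 : 0 < ε := by positivity
  have hεle : ε ≤ 1 / 4 := by
    rw [hε, div_le_iff₀ (by positivity)]
    nlinarith
  have hpd : 0 < 2 ^ d := by positivity
  have hsub : Set.pi ((Finset.range (t + 1) : Finset ℕ) : Set ℕ)
      (fun i => {y : Torus d | dst y (cc d t κ τ i) ≤ ε}) ⊆ GE d t := by
    intro x hx
    have hx' : ∀ i ≤ t, dst (x i) (cc d t κ τ i) ≤ ε := fun i hi =>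
      hx i (by rw [Finset.mem_coe, Finset.mem_range]; omega)
    refine base_good hd ht hr hr' rfl (κ := κ) (τ := τ) (ε := ε) ?_ ?_ hε0 ?_ ?_ ?_ ?_ ?_
    · rw [hκ]; field_simp
    · rw [hτ]; field_simp
    · rw [hε]
      exact (div_mul_cancel₀ _ (by positivity)).le
    · have := hx' 0 (Nat.zero_le _)
      simpa [cc] using this
    · intro k hk
      have h := hx' (k + 1) (by omega)
      have h2 : cc d t κ τ (k + 1) = pr (sg d k κ) := by
        unfold cc
        rw [if_neg (by omega), if_neg (by omega), if_pos (by omega), Nat.add_sub_cancel]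
      rwa [h2] at h
    · intro i hi hit
      have h := hx' i hit.le
      have h2 : cc d t κ τ i = pr (sg d 0 κ) := by
        unfold cc
        rw [if_neg (by omega), if_neg (by omega), if_neg (by omega)]
      rwa [h2] at h
    · have h := hx' t le_rfl
      have h2 : cc d t κ τ t = pr (fun _ => -τ) := by
        unfold cc
        rw [if_neg (by omega), if_pos rfl]
      rwa [h2] at h
  refine lt_of_lt_of_le ?_ (measure_mono hsub)
  unfold P PP
  rw [Measure.infinitePi_pi _ fun i _ => measurableSet_ball _ _]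
  simp only [vol_ball]
  rw [Finset.prod_const]
  refine ENNReal.pow_pos ?_ _
  rw [V_small hε0 hεle, ENNReal.ofReal_pos]
  have := ve_pos hd1
  positivity

end Pool.Agent.T6.H59.NN
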