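import Mathlib

/-!
# Numerical estimates
-/

set_option autoImplicit false

namespace Pool.Agent.T6.H59.NN

/-- a truncated harmonic sum -/
lemma sum_min_le {a : ℝ} (ha : 0 < a) (M : ℕ) :
    ∑ m ∈ Finset.range M, min a (1 / ((m : ℝ) + 1)) ≤ 2 * Real.log (1 + a * M) := by
  have h : ∀ m ∈ Finset.range M, min a (1 / ((m : ℝ) + 1)) ≤
      2 * Real.log (1 + a * ((m + 1 : ℕ) : ℝ)) - 2 * Real.log (1 + a * (m : ℝ)) := by
    intro m _
    have hm : (0 : ℝ) ≤ m := Nat.cast_nonneg m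
    have h1 : 0 < 1 + a * (m : ℝ) := by positivity
    have h2 : 0 < 1 + a * ((m + 1 : ℕ) : ℝ) := by positivity
    have h3 : a / (1 + a * ((m + 1 : ℕ) : ℝ)) ≤
        Real.log (1 + a * ((m + 1 : ℕ) : ℝ)) - Real.log (1 + a * (m : ℝ)) := by
      have h4 := Real.log_le_sub_one_of_pos (x := (1 + a * (m : ℝ)) / (1 + a * ((m + 1 : ℕ) : ℝ)))
        (by positivity)
      rw [Real.log_div h1.ne' h2.ne'] at h4
      have h5 : (1 + a * (m : ℝ)) / (1 + a * ((m + 1 : ℕ) : ℝ)) - 1 =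
          - (a / (1 + a * ((m + 1 : ℕ) : ℝ))) := by
        field_simp
        push_cast
        ring
      linarith
    have h6 : min a (1 / ((m : ℝ) + 1)) ≤ 2 * (a / (1 + a * ((m + 1 : ℕ) : ℝ))) := by
      push_cast
      push_cast at h2
      rcases le_total (a * ((m : ℝ) + 1)) 1 with h7 | h7
      · refine (min_le_left _ _).trans ?_
        rw [← mul_div_assoc, le_div_iff₀ h2]
        nlinarith
      · refine (min_le_right _ _).trans ?_
        rw [← mul_div_assoc, div_le_div_iff₀ (by positivity) h2]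
        nlinarith
    linarith
  refine (Finset.sum_le_sum h).trans ?_
  rw [Finset.sum_range_sub (fun m : ℕ => 2 * Real.log (1 + a * (m : ℝ)))]
  simp

lemma geom_le {a : ℝ} (ha : 0 ≤ a) (ha1 : a ≤ 1) (M : ℕ) :
    ∑ m ∈ Finset.range M, (1 - a) ^ m * a ≤ 1 := by
  rw [← Finset.sum_mul]
  have := geom_sum_mul (1 - a) M
  have h2 : (0 : ℝ) ≤ (1 - a) ^ M := pow_nonneg (by linarith) _
  nlinarith

lemma third_le {t n : ℕ} (ht : 2 ≤ t) (hn : n ≤ t - 1) : (1 / 3 : ℝ) ≤ (1 - 1 / t) ^ n := by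
  have ht' : (2 : ℝ) ≤ t := by exact_mod_cast ht
  have h0 : (0 : ℝ) ≤ 1 - 1 / t := by
    rw [sub_nonneg, div_le_one (by linarith)]; linarith
  have h1 : (1 - 1 / t : ℝ) ≤ 1 := by
    have : (0 : ℝ) ≤ 1 / t := by positivity
    linarith
  refine le_trans ?_ (pow_le_pow_of_le_one h0 h1 hn)
  have h2 : (1 - 1 / t : ℝ) = (1 + 1 / ((t - 1 : ℕ) : ℝ))⁻¹ := by
    have : ((t - 1 : ℕ) : ℝ) = (t : ℝ) - 1 := by
      rw [Nat.cast_sub (by omega)]; norm_num
    rw [this]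
    have h3 : (t : ℝ) - 1 ≠ 0 := by linarith
    have h4 : (t : ℝ) ≠ 0 := by linarith
    refine eq_inv_of_mul_eq_one_left ?_
    field_simp
    ring
  rw [h2, inv_pow]
  have h3 : (0 : ℝ) < ((t - 1 : ℕ) : ℝ) := by
    have : 0 < t - 1 := by omega
    exact_mod_cast this
  have h4 : (1 + 1 / ((t - 1 : ℕ) : ℝ)) ^ (t - 1) ≤ 3 := by
    have h5 : 1 + 1 / ((t - 1 : ℕ) : ℝ) ≤ Real.exp (1 / ((t - 1 : ℕ) : ℝ)) := by
      have := Real.add_one_le_exp (1 / ((t - 1 : ℕ) : ℝ))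
      linarith
    calc (1 + 1 / ((t - 1 : ℕ) : ℝ)) ^ (t - 1) ≤ Real.exp (1 / ((t - 1 : ℕ) : ℝ)) ^ (t - 1) :=
          pow_le_pow_left₀ (by positivity) h5 _
      _ = Real.exp 1 := by
          rw [← Real.exp_nat_mul]
          congr 1
          field_simp
      _ ≤ 3 := Real.exp_one_lt_three.le
  rw [one_div]
  exact inv_anti₀ (by positivity) h4

lemma eta_small {d : ℕ} (hd : 2 ^ 20 ≤ d) :
    Real.sqrt (1 - 1 / 16384) ^ d * (10 * d + 35) ≤ 1 / 100 := by
  have hd' : (2 ^ 20 : ℝ) ≤ d := by exact_mod_cast hd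
  set u : ℝ := d / 32768 with hu
  have hu32 : 32 ≤ u := by rw [hu, le_div_iff₀ (by norm_num)]; norm_num at hd' ⊢; linarith
  have h1 : Real.sqrt (1 - 1 / 16384) ≤ Real.exp (-(1 / 32768)) := by
    have h2 : Real.sqrt (1 - 1 / 16384) ≤ 1 - 1 / 32768 := by
      rw [Real.sqrt_le_left (by norm_num)]
      norm_num
    have h3 := Real.add_one_le_exp (-(1 / 32768 : ℝ))
    linarith
  have h2 : Real.sqrt (1 - 1 / 16384) ^ d ≤ Real.exp (-u) := by
    calc Real.sqrt (1 - 1 / 16384) ^ d ≤ Real.exp (-(1 / 32768)) ^ d :=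
          pow_le_pow_left₀ (Real.sqrt_nonneg _) h1 _
      _ = Real.exp (-u) := by
          rw [← Real.exp_nat_mul]
          congr 1
          rw [hu]; ring
  have h3 : 2 ^ 30 * (u - 29) ≤ Real.exp u := by
    have h4 : Real.exp u = Real.exp 30 * Real.exp (u - 30) := by
      rw [← Real.exp_add]; congr 1; ring
    have h5 : (2 : ℝ) ^ 30 ≤ Real.exp 30 := by
      have h6 : (2 : ℝ) ≤ Real.exp 1 := by
        have := Real.add_one_le_exp (1 : ℝ); linarith
      calc (2 : ℝ) ^ 30 ≤ Real.exp 1 ^ 30 := pow_le_pow_left₀ (by norm_num) h6 _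
        _ = Real.exp 30 := by rw [← Real.exp_nat_mul]; norm_num
    have h6 := Real.add_one_le_exp (u - 30)
    rw [h4]
    have h7 : 0 ≤ u - 29 := by linarith
    calc 2 ^ 30 * (u - 29) ≤ Real.exp 30 * (u - 29) := mul_le_mul_of_nonneg_right h5 h7
      _ ≤ Real.exp 30 * Real.exp (u - 30) :=
          mul_le_mul_of_nonneg_left (by linarith) (Real.exp_pos _).le
  have h4 : (10 * d + 35 : ℝ) = 327680 * u + 35 := by rw [hu]; ring
  rw [h4]
  have h5 : Real.exp (-u) * (327680 * u + 35) ≤ 1 / 100 := by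
    rw [Real.exp_neg, inv_mul_le_iff₀ (Real.exp_pos _)]
    nlinarith
  exact (mul_le_mul_of_nonneg_right h2 (by linarith)).trans h5

lemma pow_small {d : ℕ} (hd : 2 ^ 20 ≤ d) : ((1 : ℝ) / 2) ^ d ≤ 1 / 100000 := by
  have h1 : 20 ≤ d := le_trans (by norm_num) hd
  calc ((1 : ℝ) / 2) ^ d ≤ (1 / 2) ^ 20 := pow_le_pow_of_le_one (by norm_num) (by norm_num) h1
    _ ≤ 1 / 100000 := by norm_num

/-- the dyadic lower bound of a harmonic sum -/
lemma harm_ge {a : ℕ} (ha : 0 < a) (k : ℕ) :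
    (k : ℝ) / 2 ≤ ∑ t ∈ Finset.Ioc a (2 ^ k * a), (1 : ℝ) / t := by
  induction k with
  | zero => simp
  | succ k ih =>
    have h1 : a ≤ 2 ^ k * a := Nat.le_mul_of_pos_left _ (by positivity)
    have h2 : 2 ^ k * a ≤ 2 ^ (k + 1) * a := Nat.mul_le_mul_right _
      (Nat.pow_le_pow_right (by norm_num) (Nat.le_succ k))
    rw [← Finset.sum_Ioc_consecutive (fun t : ℕ => (1 : ℝ) / t) h1 h2]
    have h3 : (1 : ℝ) / 2 ≤ ∑ t ∈ Finset.Ioc (2 ^ k * a) (2 ^ (k + 1) * a), (1 : ℝ) / t := by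
      have h4 : ∀ t ∈ Finset.Ioc (2 ^ k * a) (2 ^ (k + 1) * a),
          (1 : ℝ) / (2 ^ (k + 1) * a) ≤ 1 / t := by
        intro t ht
        have ht' := Finset.mem_Ioc.mp ht
        have h5 : (t : ℝ) ≤ 2 ^ (k + 1) * a := by exact_mod_cast ht'.2
        have h6 : (0 : ℝ) < t := by
          have : 0 < t := lt_of_le_of_lt (Nat.zero_le _) ht'.1
          exact_mod_cast this
        exact one_div_le_one_div_of_le h6 h5
      refine le_trans (le_of_eq ?_) (Finset.card_nsmul_le_sum _ _ _ h4)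
      rw [Nat.card_Ioc, nsmul_eq_mul]
      have h7 : 2 ^ (k + 1) * a - 2 ^ k * a = 2 ^ k * a := by
        have h8 : 2 ^ (k + 1) * a = 2 ^ k * a + 2 ^ k * a := by ring
        omega
      rw [h7]
      have : (0 : ℝ) < a := by exact_mod_cast ha
      push_cast
      field_simp
      ring
    push_cast
    linarith

end Pool.Agent.T6.H59.NN
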