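import Pool.Agent.T6.H59.NN.Step
import Pool.Agent.T6.H59.NN.Num

/-!
# The induction step
-/

set_option autoImplicit false

namespace Pool.Agent.T6.H59.NN

open MeasureTheory
open scoped ENNReal

variable {d : ℕ}

/-- good children of `j` -/
def GG (d j t : ℕ) : Set (ℕ → Torus d) := GE d t ∩ {x | IsParent x t j}

lemma m_GG (j t : ℕ) : MeasurableSet (GG d j t) := (m_GE t).inter (measurableSet_isParent t j)

def EA (d j t : ℕ) : Set (ℕ → Torus d) := (GE d j ∩ ShellE d j t) ∩ NewE d j t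

def E1 (d j t : ℕ) : Set (ℕ → Torus d) := (GE d j) ∩ (BallE d j t ∩ PL d j t)

def E2 (d j t s : ℕ) : Set (ℕ → Torus d) :=
  (GE d j ∩ (Near d j s ∩ NewE d j s)) ∩ (BallE d j t ∩ LensE d j s t)

def E3 (d j t s : ℕ) : Set (ℕ → Torus d) := (GE d j ∩ (Far d j s ∩ NewE d j s)) ∩ BallE d j t

def E4 (d j t : ℕ) : Set (ℕ → Torus d) := (GE d j ∩ BallE d j t) ∩ BadW d t

lemma cover {j t : ℕ} (hjt : j < t) (hr : 4 * rr d t < rr d j) :
    EA d j t ⊆ (GG d j t ∪ E1 d j t) ∪ ((⋃ s ∈ Finset.Ioo j t, E2 d j t s) ∪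
      ((⋃ s ∈ Finset.Ioo j t, E3 d j t s) ∪ E4 d j t)) := by
  rintro x ⟨⟨hg, hs1, hs2⟩, hn⟩
  by_contra hcon
  have c0 : x ∉ GG d j t := fun h => hcon (Or.inl (Or.inl h))
  have c1 : x ∉ E1 d j t := fun h => hcon (Or.inl (Or.inr h))
  have c2 : ∀ s ∈ Finset.Ioo j t, x ∉ E2 d j t s := fun s hs h =>
    hcon (Or.inr (Or.inl (Set.mem_biUnion hs h)))
  have c3 : ∀ s ∈ Finset.Ioo j t, x ∉ E3 d j t s := fun s hs h =>
    hcon (Or.inr (Or.inr (Or.inl (Set.mem_biUnion hs h))))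
  have c4 : x ∉ E4 d j t := fun h => hcon (Or.inr (Or.inr (Or.inr h)))
  have hgood := good_step hjt hr hg hs1 hs2 hn
    (fun q hq hlt => c1 ⟨hg, hs2, q, hq, hlt⟩)
    (fun s hs h => c2 s hs ⟨⟨hg, h.1, h.2.1⟩, hs2, h.2.2⟩)
    (fun s hs h => c3 s hs ⟨⟨hg, ⟨h.1, h.2.1⟩, h.2.2⟩, hs2⟩)
    (by
      by_contra hW
      exact c4 ⟨⟨hg, hs2⟩, hW⟩)
  exact c0 ⟨hgood.2, hgood.1⟩

lemma cover_le {j t : ℕ} (hjt : j < t) (hr : 4 * rr d t < rr d j) :
    (P d).real (EA d j t) ≤ (P d).real (GG d j t) + (P d).real (E1 d j t) +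
      (∑ s ∈ Finset.Ioo j t, (P d).real (E2 d j t s) +
        (∑ s ∈ Finset.Ioo j t, (P d).real (E3 d j t s) + (P d).real (E4 d j t))) := by
  refine (measureReal_mono (cover hjt hr)).trans ?_
  refine (measureReal_union_le _ _).trans (add_le_add (measureReal_union_le _ _) ?_)
  refine (measureReal_union_le _ _).trans (add_le_add (measureReal_biUnion_finset_le _ _) ?_)
  exact (measureReal_union_le _ _).trans (add_le_add (measureReal_biUnion_finset_le _ _) le_rfl)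

section

variable (hd : 2 ^ 20 ≤ d) {j t : ℕ} (hj : 0 < j) (hjt : 4 ^ d * j < t) (htj : t ≤ 8 ^ d * j)
  (hsm : rr d j ≤ 1 / 32)

include hd hj hjt

lemma hd0 : 0 < d := lt_of_lt_of_le (by norm_num) hd

lemma hjt' : j < t := lt_of_le_of_lt (Nat.le_mul_of_pos_left _ (by positivity)) hjt

lemma ht1 : (1 : ℝ) ≤ t := by
  have h : 1 ≤ t := by
    have := hjt' hd hj hjt
    omega
  exact_mod_cast h

lemma hr4 : 4 * rr d t < rr d j := by
  have h := rr_lt (hd0 hd hj hjt) hj (hj.trans (hjt' hd hj hjt)) (θ := 1 / 4) (by norm_num) (by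
    have : (4 ^ d * j : ℝ) < t := by exact_mod_cast hjt
    rw [one_div, inv_pow, ← div_eq_inv_mul, lt_div_iff₀ (by positivity)]
    linarith)
  simpa using h

include hsm

lemma hrt : rr d t ≤ 1 / 4 := by
  have h1 := hr4 hd hj hjt
  have h2 := rr_pos (hd0 hd hj hjt) (hj.trans (hjt' hd hj hjt))
  linarith

lemma hV1 : V d (rr d t) = ENNReal.ofReal (1 / t) := by
  have h := V_rr (hd0 hd hj hjt) (hj.trans (hjt' hd hj hjt)) (θ := 1) one_pos (by
    rw [one_mul]; exact hrt hd hj hjt hsm)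
  rwa [one_mul, one_pow] at h

lemma hV2 : V d (rr d t / 2) = ENNReal.ofReal ((1 / 2) ^ d / t) := by
  have h := V_rr (hd0 hd hj hjt) (hj.trans (hjt' hd hj hjt)) (θ := 1 / 2) (by norm_num) (by
    have h1 := hrt hd hj hjt hsm
    have h2 := rr_pos (hd0 hd hj hjt) (hj.trans (hjt' hd hj hjt))
    linarith)
  rw [← h]
  congr 1
  ring

lemma hV8 : V d (8 * rr d j) = ENNReal.ofReal (8 ^ d / j) :=
  V_rr (hd0 hd hj hjt) hj (by norm_num) (by linarith)

lemma a_le_one : (8 : ℝ) ^ d / j ≤ 1 := by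
  have h := V_le_one (d := d) (8 * rr d j)
  rw [hV8 hd hj hjt hsm] at h
  exact ENNReal.ofReal_le_one.mp h

/-- the lower bound for the favourable event -/
lemma real_A : (1 - 1 / (t : ℝ)) ^ (t - j - 1) * ((1 / t - (1 / 2) ^ d / t) *
    (P d).real (GE d j)) ≤ (P d).real (EA d j t) := by
  have h := est_A (hd0 hd hj hjt) hj (hjt' hd hj hjt) (hrt hd hj hjt hsm)
  rw [hV1 hd hj hjt hsm, hV2 hd hj hjt hsm] at h
  have ht := ht1 hd hj hjt
  have h1 : (0 : ℝ) ≤ 1 / t := by positivity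
  have h2 : (0 : ℝ) ≤ (1 / 2) ^ d / t := by positivity
  have h3 : (1 / t : ℝ) ≤ 1 := by rw [div_le_one (by linarith)]; exact ht
  have h4 : (0 : ℝ) ≤ 1 / t - (1 / 2) ^ d / t := by
    rw [← sub_div]
    have : ((1 : ℝ) / 2) ^ d ≤ 1 := pow_le_one₀ (by norm_num) (by norm_num)
    exact div_nonneg (by linarith) (by linarith)
  rw [← ENNReal.ofReal_one, ← ENNReal.ofReal_sub _ h1, ← ENNReal.ofReal_sub _ h2] at h
  have h5 := ENNReal.toReal_mono (measure_ne_top _ _) h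
  rw [ENNReal.toReal_mul, ENNReal.toReal_pow, ENNReal.toReal_mul,
    ENNReal.toReal_ofReal (by linarith), ENNReal.toReal_ofReal h4] at h5
  exact h5

lemma real_E1 (htj : t ≤ 8 ^ d * j) : (P d).real (E1 d j t) ≤
    Real.sqrt (1 - 1 / 16384) ^ d * (1 / t) * (P d).real (GE d j) := by
  have hrj := rr_le (hd0 hd hj hjt) hj (hj.trans (hjt' hd hj hjt)) (θ := 1 / 8) (by norm_num) (by
    have : (t : ℝ) ≤ 8 ^ d * j := by exact_mod_cast htj
    rw [one_div, inv_pow, ← div_eq_inv_mul, div_le_iff₀ (by positivity)]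
    linarith)
  have h2 := rr_pos (hd0 hd hj hjt) (hj.trans (hjt' hd hj hjt))
  have h := est_B1 (hd0 hd hj hjt) hj (hjt' hd hj hjt) (by linarith) (hrt hd hj hjt hsm) (by
    have : (1 / 8 : ℝ)⁻¹ = 8 := by norm_num
    rw [this] at hrj
    linarith)
  rw [hV1 hd hj hjt hsm, eta] at h
  have ht := ht1 hd hj hjt
  have h5 := ENNReal.toReal_mono (by finiteness) h
  rw [ENNReal.toReal_mul, ENNReal.toReal_mul, ENNReal.toReal_ofReal (by positivity),
    ENNReal.toReal_ofReal (by positivity)] at h5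
  exact h5

lemma real_E2 (htj : t ≤ 8 ^ d * j) {s : ℕ} (hs : s ∈ Finset.Ioo j t) :
    (P d).real (E2 d j t s) ≤
    Real.sqrt (1 - 1 / 16384) ^ d * (1 / t) * (min (8 ^ d / (j : ℝ)) (1 / ((s - j : ℕ) : ℝ)) *
      (P d).real (GE d j)) := by
  obtain ⟨hs1, hs2⟩ := Finset.mem_Ioo.mp hs
  have hrj := rr_le (hd0 hd hj hjt) hj (hj.trans (hjt' hd hj hjt)) (θ := 1 / 8) (by norm_num) (by
    have : (t : ℝ) ≤ 8 ^ d * j := by exact_mod_cast htj
    rw [one_div, inv_pow, ← div_eq_inv_mul, div_le_iff₀ (by positivity)]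
    linarith)
  have h := est_B2 (hd0 hd hj hjt) hj (hjt' hd hj hjt) (by linarith) (hrt hd hj hjt hsm) (by
    have : (1 / 8 : ℝ)⁻¹ = 8 := by norm_num
    rw [this] at hrj
    linarith) hs1 hs2
  have hc1 := est_C1 (hd0 hd hj hjt) hj (hjt' hd hj hjt) hs1
  have hc2 := est_C2 (hd0 hd hj hjt) hj (hjt' hd hj hjt) hs1
  rw [hV1 hd hj hjt hsm, eta] at h
  rw [hV8 hd hj hjt hsm] at hc1
  have ht := ht1 hd hj hjt
  have hsj : s - j ≠ 0 := by omega
  have h5 := ENNReal.toReal_mono (by finiteness) h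
  have h6 := ENNReal.toReal_mono (by finiteness) hc1
  have h7 := ENNReal.toReal_mono (by
    refine ENNReal.mul_ne_top ?_ (measure_ne_top _ _)
    rw [Ne, ENNReal.inv_eq_top]
    exact_mod_cast hsj) hc2
  rw [ENNReal.toReal_mul, ENNReal.toReal_mul, ENNReal.toReal_ofReal (by positivity),
    ENNReal.toReal_ofReal (by positivity)] at h5
  rw [ENNReal.toReal_mul, ENNReal.toReal_ofReal (by positivity)] at h6
  rw [ENNReal.toReal_mul, ENNReal.toReal_inv, ENNReal.toReal_natCast] at h7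
  have h8 : (P d (GE d j ∩ (Near d j s ∩ NewE d j s))).toReal ≤
      min (8 ^ d / (j : ℝ)) (1 / ((s - j : ℕ) : ℝ)) * (P d).real (GE d j) := by
    rw [min_mul_of_nonneg _ _ measureReal_nonneg]
    refine le_min h6 ?_
    rw [one_div]
    exact h7
  exact h5.trans (mul_le_mul_of_nonneg_left h8 (by positivity))

lemma real_E3 {s : ℕ} (hs : s ∈ Finset.Ioo j t) :
    (P d).real (E3 d j t s) ≤ 1 / t * ((1 - 8 ^ d / (j : ℝ)) ^ (s - j - 1) *
      (8 ^ d / 100 / j * (P d).real (GE d j))) := by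
  obtain ⟨hs1, hs2⟩ := Finset.mem_Ioo.mp hs
  have h := est_B3 (hd0 hd hj hjt) hj (hjt' hd hj hjt) hs1 hs2
  have ha := a_le_one hd hj hjt hsm
  rw [hV1 hd hj hjt hsm, hV8 hd hj hjt hsm, ← ENNReal.ofReal_one,
    ← ENNReal.ofReal_sub _ (by positivity)] at h
  have ht := ht1 hd hj hjt
  have h5 := ENNReal.toReal_mono (by finiteness) h
  rw [ENNReal.toReal_mul, ENNReal.toReal_mul, ENNReal.toReal_mul, ENNReal.toReal_pow,
    ENNReal.toReal_ofReal (by positivity), ENNReal.toReal_ofReal (by linarith),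
    ENNReal.toReal_ofReal (by positivity)] at h5
  exact h5

lemma real_E4 : (P d).real (E4 d j t) ≤ (8 ^ d / 100 / (t : ℝ))⁻¹ * (((t - j : ℕ) : ℝ)⁻¹ *
      (1 / t * (P d).real (GE d j))) := by
  have h := est_B4 (hd0 hd hj hjt) hj (hjt' hd hj hjt)
  rw [hV1 hd hj hjt hsm] at h
  have ht := ht1 hd hj hjt
  have htj : t - j ≠ 0 := by
    have := hjt' hd hj hjt
    omega
  have hpos : (0 : ℝ) < 8 ^ d / 100 / (t : ℝ) := by positivity
  have h5 := ENNReal.toReal_mono (by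
    refine ENNReal.mul_ne_top ?_ (ENNReal.mul_ne_top ?_ (by finiteness))
    · rw [Ne, ENNReal.inv_eq_top, ENNReal.ofReal_eq_zero, not_le]
      exact hpos
    · rw [Ne, ENNReal.inv_eq_top]
      exact_mod_cast htj) h
  rw [ENNReal.toReal_mul, ENNReal.toReal_mul, ENNReal.toReal_mul, ENNReal.toReal_inv,
    ENNReal.toReal_inv, ENNReal.toReal_natCast,
    ENNReal.toReal_ofReal (by positivity), ENNReal.toReal_ofReal (by positivity)] at h5
  exact h5

end

lemma sum_Ioo_shift (f : ℕ → ℝ) (j t : ℕ) :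
    ∑ s ∈ Finset.Ioo j t, f (s - j - 1) = ∑ m ∈ Finset.range (t - j - 1), f m := by
  have h1 : Finset.Ioo j t = Finset.Ico (j + 1) t := by
    ext s
    simp only [Finset.mem_Ioo, Finset.mem_Ico]
    omega
  rw [h1, Finset.sum_Ico_eq_sum_range]
  have h2 : t - (j + 1) = t - j - 1 := by omega
  rw [h2]
  refine Finset.sum_congr rfl fun m _ => ?_
  congr 1
  omega

section

variable (hd : 2 ^ 20 ≤ d) {j t : ℕ} (hj : 0 < j) (hjt : 4 ^ d * j < t) (htj : t ≤ 8 ^ d * j)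
  (hsm : rr d j ≤ 1 / 32)

include hd hj hjt hsm

lemma sum_E2 (htj : t ≤ 8 ^ d * j) : ∑ s ∈ Finset.Ioo j t, (P d).real (E2 d j t s) ≤
    Real.sqrt (1 - 1 / 16384) ^ d * (10 * d + 34) * (1 / t * (P d).real (GE d j)) := by
  have he : 0 ≤ (P d).real (GE d j) := measureReal_nonneg
  have ht := ht1 hd hj hjt
  have hj' : (0 : ℝ) < j := by exact_mod_cast hj
  have ha0 : (0 : ℝ) < 8 ^ d / (j : ℝ) := by positivity
  refine (Finset.sum_le_sum fun s hs => real_E2 hd hj hjt hsm htj hs).trans ?_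
  rw [← Finset.mul_sum, ← Finset.sum_mul]
  have h1 : ∑ s ∈ Finset.Ioo j t, min (8 ^ d / (j : ℝ)) (1 / ((s - j : ℕ) : ℝ)) =
      ∑ m ∈ Finset.range (t - j - 1), min (8 ^ d / (j : ℝ)) (1 / ((m : ℝ) + 1)) := by
    rw [← sum_Ioo_shift (fun m : ℕ => min (8 ^ d / (j : ℝ)) (1 / ((m : ℝ) + 1))) j t]
    refine Finset.sum_congr rfl fun s hs => ?_
    have hs' := Finset.mem_Ioo.mp hs
    have : ((s - j : ℕ) : ℝ) = ((s - j - 1 : ℕ) : ℝ) + 1 := by
      have h3 : s - j = (s - j - 1) + 1 := by omega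
      conv_lhs => rw [h3]
      push_cast
      rfl
    rw [this]
  have h2 := sum_min_le ha0 (t - j - 1)
  have h3 : Real.log (1 + 8 ^ d / (j : ℝ) * ((t - j - 1 : ℕ) : ℝ)) ≤ 5 * d + 17 := by
    have h4 : 8 ^ d / (j : ℝ) * ((t - j - 1 : ℕ) : ℝ) ≤ 64 ^ d := by
      have h5 : ((t - j - 1 : ℕ) : ℝ) ≤ 8 ^ d * j := by
        have : t - j - 1 ≤ 8 ^ d * j := by omega
        exact_mod_cast this
      calc 8 ^ d / (j : ℝ) * ((t - j - 1 : ℕ) : ℝ) ≤ 8 ^ d / (j : ℝ) * (8 ^ d * j) :=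
            mul_le_mul_of_nonneg_left h5 ha0.le
        _ = 8 ^ d * 8 ^ d := by field_simp
        _ = 64 ^ d := by rw [← mul_pow]; norm_num
    have h5 : 1 + 8 ^ d / (j : ℝ) * ((t - j - 1 : ℕ) : ℝ) ≤ 2 ^ (6 * d + 1) := by
      have h6 : (64 : ℝ) ^ d = 2 ^ (6 * d) := by rw [pow_mul]; norm_num
      rw [pow_succ, ← h6]
      have h7 : (1 : ℝ) ≤ 64 ^ d := one_le_pow₀ (by norm_num)
      linarith
    have h6 := Real.log_le_log (by positivity) h5
    rw [Real.log_pow] at h6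
    push_cast at h6
    have h7 := Real.log_two_lt_d9
    have h8 : (0 : ℝ) ≤ d := Nat.cast_nonneg d
    nlinarith
  have h4 : ∑ s ∈ Finset.Ioo j t, min (8 ^ d / (j : ℝ)) (1 / ((s - j : ℕ) : ℝ)) ≤
      10 * d + 34 := by
    rw [h1]; linarith
  have h5 : (0 : ℝ) ≤ Real.sqrt (1 - 1 / 16384) ^ d * (1 / t) := by positivity
  calc Real.sqrt (1 - 1 / 16384) ^ d * (1 / (t : ℝ)) *
        ((∑ s ∈ Finset.Ioo j t, min (8 ^ d / (j : ℝ)) (1 / ((s - j : ℕ) : ℝ))) *
          (P d).real (GE d j)) ≤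
      Real.sqrt (1 - 1 / 16384) ^ d * (1 / (t : ℝ)) * ((10 * d + 34) * (P d).real (GE d j)) :=
        mul_le_mul_of_nonneg_left (mul_le_mul_of_nonneg_right h4 he) h5
    _ = _ := by ring

lemma sum_E3 : ∑ s ∈ Finset.Ioo j t, (P d).real (E3 d j t s) ≤
    1 / 100 * (1 / t * (P d).real (GE d j)) := by
  have he : 0 ≤ (P d).real (GE d j) := measureReal_nonneg
  have ht := ht1 hd hj hjt
  have hj' : (0 : ℝ) < j := by exact_mod_cast hj
  have ha0 : (0 : ℝ) < 8 ^ d / (j : ℝ) := by positivity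
  refine (Finset.sum_le_sum fun s hs => real_E3 hd hj hjt hsm hs).trans ?_
  rw [sum_Ioo_shift (fun m : ℕ => 1 / (t : ℝ) * ((1 - 8 ^ d / (j : ℝ)) ^ m *
      (8 ^ d / 100 / j * (P d).real (GE d j)))) j t]
  have h1 := geom_le ha0.le (a_le_one hd hj hjt hsm) (t - j - 1)
  have h2 : ∑ m ∈ Finset.range (t - j - 1), 1 / (t : ℝ) * ((1 - 8 ^ d / (j : ℝ)) ^ m *
      (8 ^ d / 100 / j * (P d).real (GE d j))) =
      (∑ m ∈ Finset.range (t - j - 1), (1 - 8 ^ d / (j : ℝ)) ^ m * (8 ^ d / (j : ℝ))) *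
        (1 / 100 * (1 / t * (P d).real (GE d j))) := by
    rw [Finset.sum_mul]
    refine Finset.sum_congr rfl fun m _ => ?_
    ring
  rw [h2]
  exact mul_le_of_le_one_left (by positivity) h1

lemma E4_le : (P d).real (E4 d j t) ≤ 1 / 500 * (1 / t * (P d).real (GE d j)) := by
  have he : 0 ≤ (P d).real (GE d j) := measureReal_nonneg
  have ht := ht1 hd hj hjt
  have h1 := real_E4 hd hj hjt hsm
  have h2 : (t : ℝ) / 2 ≤ ((t - j : ℕ) : ℝ) := by
    have h3 : t ≤ 2 * (t - j) := by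
      have h4 : 2 * j ≤ 4 ^ d * j := Nat.mul_le_mul_right _ (by
        calc 2 ≤ 4 ^ 1 := by norm_num
          _ ≤ 4 ^ d := Nat.pow_le_pow_right (by norm_num) (hd0 hd hj hjt))
      omega
    have : (t : ℝ) ≤ 2 * ((t - j : ℕ) : ℝ) := by exact_mod_cast h3
    linarith
  have h3 : ((t - j : ℕ) : ℝ)⁻¹ ≤ 2 / t := by
    rw [← inv_div]
    exact inv_anti₀ (by positivity) h2
  have h4 : (8 ^ d / 100 / (t : ℝ))⁻¹ = (1 / 8) ^ d * 100 * t := by
    rw [one_div, inv_pow]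
    field_simp
  rw [h4] at h1
  have h5 : ((1 : ℝ) / 8) ^ d ≤ 1 / 100000 :=
    (pow_le_pow_left₀ (by norm_num) (by norm_num) d).trans (pow_small hd)
  have h6 : (0 : ℝ) ≤ 1 / t * (P d).real (GE d j) := by positivity
  calc (P d).real (E4 d j t) ≤ (1 / 8) ^ d * 100 * t * (((t - j : ℕ) : ℝ)⁻¹ *
        (1 / t * (P d).real (GE d j))) := h1
    _ ≤ (1 / 8) ^ d * 100 * t * ((2 / t) * (1 / t * (P d).real (GE d j))) := by
        refine mul_le_mul_of_nonneg_left (mul_le_mul_of_nonneg_right h3 h6) (by positivity)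
    _ = ((1 / 8) ^ d * 200) * (1 / t * (P d).real (GE d j)) := by
        field_simp
        ring
    _ ≤ 1 / 500 * (1 / t * (P d).real (GE d j)) := by
        refine mul_le_mul_of_nonneg_right ?_ h6
        linarith

/-- the induction step -/
lemma one_step (htj : t ≤ 8 ^ d * j) :
    1 / 4 * (1 / t) * (P d).real (GE d j) ≤ (P d).real (GG d j t) := by
  have he : 0 ≤ (P d).real (GE d j) := measureReal_nonneg
  have ht := ht1 hd hj hjt
  have hcov := cover_le (hjt' hd hj hjt) (hr4 hd hj hjt)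
  have hA := real_A hd hj hjt hsm
  have h1 := real_E1 hd hj hjt hsm htj
  have h2 := sum_E2 hd hj hjt hsm htj
  have h3 := sum_E3 hd hj hjt hsm
  have h4 := E4_le hd hj hjt hsm
  have h5 := eta_small hd
  have h6 := pow_small hd
  have ht2 : 2 ≤ t := by
    have h7 : 2 * 1 ≤ 4 ^ d * j := Nat.mul_le_mul (by
        calc 2 ≤ 4 ^ 1 := by norm_num
          _ ≤ 4 ^ d := Nat.pow_le_pow_right (by norm_num) (hd0 hd hj hjt)) hj
    omega
  have h7 := third_le ht2 (n := t - j - 1) (by omega)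
  set u : ℝ := 1 / t * (P d).real (GE d j) with hu
  have hu0 : 0 ≤ u := by positivity
  have h8 : (1 / t - (1 / 2) ^ d / t) * (P d).real (GE d j) = (1 - (1 / 2) ^ d) * u := by
    rw [hu]; ring
  rw [h8] at hA
  have h9 : (1 - 1 / 100000 : ℝ) * u ≤ (1 - (1 / 2) ^ d) * u :=
    mul_le_mul_of_nonneg_right (by linarith) hu0
  have h10 : 1 / 3 * ((1 - 1 / 100000 : ℝ) * u) ≤
      (1 - 1 / (t : ℝ)) ^ (t - j - 1) * ((1 - (1 / 2) ^ d) * u) :=
    mul_le_mul h7 h9 (by positivity) (by positivity)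
  have h11 : Real.sqrt (1 - 1 / 16384) ^ d * (1 / t) * (P d).real (GE d j) =
      Real.sqrt (1 - 1 / 16384) ^ d * u := by rw [hu]; ring
  rw [h11] at h1
  have h12 : Real.sqrt (1 - 1 / 16384) ^ d * u +
      Real.sqrt (1 - 1 / 16384) ^ d * (10 * d + 34) * u ≤ 1 / 100 * u := by
    have h13 := mul_le_mul_of_nonneg_right h5 hu0
    linarith
  have h13 : 1 / 4 * (1 / (t : ℝ)) * (P d).real (GE d j) = 1 / 4 * u := by rw [hu]; ring
  rw [h13]
  linarith

end

/-- each good vertex has on average at least two good children in the window -/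
lemma two_children (hd : 2 ^ 20 ≤ d) {j : ℕ} (hj : 0 < j) (hsm : rr d j ≤ 1 / 32) :
    2 * (P d).real (GE d j) ≤
      ∑ t ∈ Finset.Ioc (4 ^ d * j) (2 ^ 16 * (4 ^ d * j)), (P d).real (GG d j t) := by
  have he : 0 ≤ (P d).real (GE d j) := measureReal_nonneg
  have h1 := harm_ge (a := 4 ^ d * j) (by positivity) 16
  have h2 : ∀ t ∈ Finset.Ioc (4 ^ d * j) (2 ^ 16 * (4 ^ d * j)),
      1 / 4 * (1 / (t : ℝ)) * (P d).real (GE d j) ≤ (P d).real (GG d j t) := by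
    intro t ht
    obtain ⟨ht1, ht2⟩ := Finset.mem_Ioc.mp ht
    refine one_step hd hj ht1 hsm (ht2.trans ?_)
    rw [← mul_assoc]
    refine Nat.mul_le_mul_right _ ?_
    have h3 : (8 : ℕ) ^ d = 2 ^ d * 4 ^ d := by rw [← mul_pow]; norm_num
    rw [h3]
    exact Nat.mul_le_mul_right _ (Nat.pow_le_pow_right (by norm_num) (le_trans (by norm_num) hd))
  refine le_trans ?_ (Finset.sum_le_sum h2)
  rw [← Finset.sum_mul, ← Finset.mul_sum]
  refine mul_le_mul_of_nonneg_right ?_ he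
  push_cast at h1
  linarith

end Pool.Agent.T6.H59.NN
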