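import Mathlib

/-!
# Random nearest neighbour trees on the torus: definitions
-/

set_option autoImplicit false

namespace Pool.Agent.T6.H59.NN

open MeasureTheory

/-- The torus `(ℝ / ℤ) ^ d`. -/
abbrev Torus (d : ℕ) : Type := Fin d → UnitAddCircle

variable {d : ℕ}

/-- The torus metric: `dst x y ^ 2` is the sum over the coordinates of the squared distances in
`ℝ / ℤ`. -/
noncomputable def dst (x y : Torus d) : ℝ := Real.sqrt (∑ i, ‖x i - y i‖ ^ 2)

/-- The vertex `j` is the parent of the vertex `i` (for the positions `x 0, x 1, x 2, …`): among the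
vertices `k < i` it is the one whose position is the nearest to `x i`. -/
def IsParent (x : ℕ → Torus d) (i j : ℕ) : Prop :=
  j < i ∧ ∀ k < i, k ≠ j → dst (x i) (x j) < dst (x i) (x k)

/-- Adjacency in the nearest neighbour tree `T_n` with the vertices `0, …, n - 1`. -/
def Adj (x : ℕ → Torus d) (n u v : ℕ) : Prop :=
  u < n ∧ v < n ∧ (IsParent x u v ∨ IsParent x v u)

/-- The forbidden region of an edge with the end points `a` and `b`. -/
def Forbidden (a b : Torus d) : Set (Torus d) := {y | dst y a < dst a b ∧ dst y b < dst a b}

/-- The vertex `v` of `T_n` is covered by the edge `{p, q}`, as a neighbour of `p`. -/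
def CoveredBy (x : ℕ → Torus d) (n v p q : ℕ) : Prop :=
  Adj x n p q ∧ Adj x n v p ∧ v ≠ q ∧ x v ∈ Forbidden (x p) (x q)

/-- The vertex `v` of `T_n` is covered: it is, or descends from, a vertex `w` which is covered by
some edge of `T_n`. -/
def Covered (x : ℕ → Torus d) (n v : ℕ) : Prop :=
  ∃ w, Relation.ReflTransGen (IsParent x) v w ∧ ∃ p q, CoveredBy x n w p q

open Classical in
/-- The set of the uncovered vertices of `T_n`. -/
noncomputable def unc (x : ℕ → Torus d) (n : ℕ) : Finset ℕ :=
  (Finset.range n).filter fun v => ¬ Covered x n v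

/-- The law of a sequence of independent uniform points of the torus. -/
noncomputable def unif (d : ℕ) : Measure (ℕ → Torus d) :=
  Measure.infinitePi fun _ => (volume : Measure (Torus d))

end Pool.Agent.T6.H59.NN
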