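import Pool.Agent.T6.H59.NN.Defs

/-!
# Deterministic facts on coverings
-/

set_option autoImplicit false

namespace Pool.Agent.T6.H59.NN

open MeasureTheory

variable {d : ℕ} {x : ℕ → Torus d}

lemma dst_comm (a b : Torus d) : dst a b = dst b a := by
  unfold dst
  congr 1
  exact Finset.sum_congr rfl fun i _ => by rw [norm_sub_rev]

lemma dst_nonneg (a b : Torus d) : 0 ≤ dst a b := Real.sqrt_nonneg _

lemma dst_eq (a b : Torus d) :
    dst a b = ‖(WithLp.toLp 2 a - WithLp.toLp 2 b : PiLp 2 (fun _ : Fin d => UnitAddCircle))‖ := by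
  rw [PiLp.norm_eq_of_L2]
  rfl

lemma dst_triangle (a b c : Torus d) : dst a c ≤ dst a b + dst b c := by
  rw [dst_eq, dst_eq, dst_eq]
  exact norm_sub_le_norm_sub_add_norm_sub _ _ _

lemma dst_self (a : Torus d) : dst a a = 0 := by
  rw [dst_eq, sub_self, norm_zero]

lemma dst_add (a b c : Torus d) : dst (a + c) (b + c) = dst a b := by
  unfold dst
  congr 1
  exact Finset.sum_congr rfl fun i _ => by simp

lemma continuous_dst : Continuous fun q : Torus d × Torus d => dst q.1 q.2 := by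
  unfold dst
  fun_prop

lemma IsParent.unique {i j k : ℕ} (h : IsParent x i j) (h' : IsParent x i k) : j = k := by
  by_contra hne
  have h1 := h.2 k h'.1 (Ne.symm hne)
  have h2 := h'.2 j h.1 hne
  exact absurd h1 (not_lt.mpr h2.le)

/-- `v` is covered by an edge whose end points arrived before `v` -/
def DC (x : ℕ → Torus d) (v : ℕ) : Prop :=
  ∃ p < v, ∃ q < v, IsParent x v p ∧ (IsParent x p q ∨ IsParent x q p) ∧
    x v ∈ Forbidden (x p) (x q)

lemma DC_of_coveredBy {n v p q : ℕ} (h : CoveredBy x n v p q) : DC x v := by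
  obtain ⟨⟨-, -, hpq⟩, ⟨-, -, hvp⟩, hne, hF⟩ := h
  have hF2 : dst (x v) (x q) < dst (x p) (x q) := hF.2
  -- `p` is the parent of `v`
  have hvp' : IsParent x v p := by
    rcases hvp with h | h
    · exact h
    · exfalso
      rcases hpq with h1 | h1
      · exact hne (h.unique h1)
      · have h2 := h1.2 v (h.1.trans h1.1) h.1.ne
        rw [dst_comm (x p), dst_comm (x v)] at hF2
        exact absurd hF2 (not_lt.mpr h2.le)
  refine ⟨p, hvp'.1, q, ?_, hvp', hpq, hF⟩
  rcases hpq with h1 | h1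
  · exact h1.1.trans hvp'.1
  · by_contra hcon
    have hvq : v < q := lt_of_le_of_ne (not_lt.mp hcon) hne
    have h2 := h1.2 v hvq hvp'.1.ne'
    rw [dst_comm (x p), dst_comm (x v)] at hF2
    exact absurd hF2 (not_lt.mpr h2.le)

/-- no ancestor of `v` (including `v`) is directly covered -/
def Unc (x : ℕ → Torus d) (v : ℕ) : Prop :=
  ¬ ∃ w, Relation.ReflTransGen (IsParent x) v w ∧ DC x w

lemma mem_unc {n v : ℕ} (hv : v < n) (h : Unc x v) : v ∈ unc x n := by
  classical
  unfold unc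
  rw [Finset.mem_filter]
  refine ⟨Finset.mem_range.mpr hv, ?_⟩
  rintro ⟨w, hw, p, q, hpq⟩
  exact h ⟨w, hw, DC_of_coveredBy hpq⟩

lemma Unc.step {t j : ℕ} (hj : Unc x j) (hp : IsParent x t j) (hn : ¬ DC x t) : Unc x t := by
  rintro ⟨w, hw, hw'⟩
  rcases Relation.ReflTransGen.cases_head hw with h | ⟨c, hc, hcw⟩
  · exact hn (h ▸ hw')
  · rw [hc.unique hp] at hcw
    exact hj ⟨w, hcw, hw'⟩

lemma unc_zero (x : ℕ → Torus d) : Unc x 0 := by
  rintro ⟨w, hw, hw'⟩
  rcases Relation.ReflTransGen.cases_head hw with h | ⟨c, hc, -⟩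
  · subst h
    obtain ⟨p, hp, -⟩ := hw'
    omega
  · have := hc.1
    omega

lemma unc_iff (x : ℕ → Torus d) (v : ℕ) :
    Unc x v ↔ ¬ DC x v ∧ ∀ p < v, IsParent x v p → Unc x p := by
  constructor
  · intro h
    refine ⟨fun h1 => h ⟨v, Relation.ReflTransGen.refl, h1⟩, fun p _ hp => ?_⟩
    rintro ⟨w, hw, hw'⟩
    exact h ⟨w, Relation.ReflTransGen.head hp hw, hw'⟩
  · rintro ⟨h1, h2⟩ ⟨w, hw, hw'⟩
    rcases Relation.ReflTransGen.cases_head hw with h | ⟨c, hc, hcw⟩
    · exact h1 (h ▸ hw')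
    · exact h2 c hc.1 hc ⟨w, hcw, hw'⟩

/-! ### dependence on the past only -/

lemma isParent_congr {x y : ℕ → Torus d} {i : ℕ} (h : ∀ k ≤ i, x k = y k) (j : ℕ) :
    IsParent x i j ↔ IsParent y i j := by
  unfold IsParent
  constructor
  · rintro ⟨h1, h2⟩
    refine ⟨h1, fun k hk hne => ?_⟩
    rw [← h i le_rfl, ← h j h1.le, ← h k hk.le]
    exact h2 k hk hne
  · rintro ⟨h1, h2⟩
    refine ⟨h1, fun k hk hne => ?_⟩
    rw [h i le_rfl, h j h1.le, h k hk.le]
    exact h2 k hk hne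

lemma DC_congr {x y : ℕ → Torus d} {v : ℕ} (h : ∀ k ≤ v, x k = y k) : DC x v ↔ DC y v := by
  unfold DC
  constructor
  · rintro ⟨p, hp, q, hq, h1, h2, h3⟩
    refine ⟨p, hp, q, hq, (isParent_congr h p).mp h1, ?_, ?_⟩
    · rcases h2 with h2 | h2
      · exact Or.inl ((isParent_congr (fun k hk => h k (hk.trans hp.le)) q).mp h2)
      · exact Or.inr ((isParent_congr (fun k hk => h k (hk.trans hq.le)) p).mp h2)
    · rw [← h v le_rfl, ← h p hp.le, ← h q hq.le]
      exact h3
  · rintro ⟨p, hp, q, hq, h1, h2, h3⟩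
    refine ⟨p, hp, q, hq, (isParent_congr h p).mpr h1, ?_, ?_⟩
    · rcases h2 with h2 | h2
      · exact Or.inl ((isParent_congr (fun k hk => h k (hk.trans hp.le)) q).mpr h2)
      · exact Or.inr ((isParent_congr (fun k hk => h k (hk.trans hq.le)) p).mpr h2)
    · rw [h v le_rfl, h p hp.le, h q hq.le]
      exact h3

lemma Unc_congr {x y : ℕ → Torus d} {v : ℕ} (h : ∀ k ≤ v, x k = y k) : Unc x v ↔ Unc y v := by
  induction v using Nat.strong_induction_on with
  | _ v ih =>
    rw [unc_iff, unc_iff, DC_congr h]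
    refine and_congr Iff.rfl ?_
    refine forall_congr' fun p => forall_congr' fun hp => ?_
    rw [isParent_congr h p, ih p hp fun k hk => h k (hk.trans hp.le)]

end Pool.Agent.T6.H59.NN
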