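import Pool.Agent.T6.H59.NN.Prob

/-!
# Probabilities of events by resampling
-/

set_option autoImplicit false

namespace Pool.Agent.T6.H59.NN

open MeasureTheory
open scoped ENNReal

variable {X : Type*} [MeasurableSpace X] (μ : Measure X) [IsProbabilityMeasure μ]

/-- the set `A` does not depend on the coordinate `t` -/
def Indep (t : ℕ) (A : Set (ℕ → X)) : Prop := ∀ x y, Function.update x t y ∈ A ↔ x ∈ A

variable {μ}

lemma meas_upd (t : ℕ) {A : Set (ℕ → X)} (hA : MeasurableSet A) (hAt : Indep t A)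
    {R : (ℕ → X) → Set X} (hR : MeasurableSet {q : (ℕ → X) × X | q.2 ∈ R q.1})
    (hRt : ∀ x y, R (Function.update x t y) = R x) :
    PP μ (A ∩ {x | x t ∈ R x}) = ∫⁻ x in A, μ (R x) ∂(PP μ) := by
  have h := lintegral_indep μ {t} R hR (fun x s hs y => by
    rw [Finset.mem_singleton] at hs; subst hs; exact hRt x y) (Set.indicator A 1)
    (measurable_one.indicator hA) (fun x s hs y => by
      rw [Finset.mem_singleton] at hs; subst hs
      by_cases hx : x ∈ A
      · rw [Set.indicator_of_mem hx, Set.indicator_of_mem ((hAt x y).mpr hx)]; rfl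
      · rw [Set.indicator_of_notMem hx, Set.indicator_of_notMem (fun h => hx ((hAt x y).mp h))])
  simp only [Finset.mem_singleton, forall_eq, Finset.card_singleton, pow_one] at h
  have hRm : MeasurableSet {x : ℕ → X | x t ∈ R x} := by
    have h1 : Measurable fun x : ℕ → X => (x, x t) := measurable_id.prodMk (measurable_pi_apply t)
    exact h1 hR
  rw [← lintegral_indicator_one (hA.inter hRm), ← lintegral_indicator hA]
  rw [show (∫⁻ x, (A ∩ {x | x t ∈ R x}).indicator 1 x ∂(PP μ)) =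
    ∫⁻ x, Set.indicator {x | x t ∈ R x} (Set.indicator A 1) x ∂(PP μ) from ?_, h]
  · refine lintegral_congr fun x => ?_
    by_cases hx : x ∈ A
    · rw [Set.indicator_of_mem hx, Set.indicator_of_mem hx, Pi.one_apply, one_mul]
    · rw [Set.indicator_of_notMem hx, Set.indicator_of_notMem hx, zero_mul]
  · refine lintegral_congr fun x => ?_
    rw [Set.indicator_indicator, Set.inter_comm]

lemma meas_indep (F : Finset ℕ) {A : Set (ℕ → X)} (hA : MeasurableSet A)
    (hAF : ∀ s ∈ F, Indep s A)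
    {S : (ℕ → X) → Set X} (hS : MeasurableSet {q : (ℕ → X) × X | q.2 ∈ S q.1})
    (hSF : ∀ x, ∀ s ∈ F, ∀ y, S (Function.update x s y) = S x) :
    PP μ (A ∩ {x | ∀ s ∈ F, x s ∈ S x}) = ∫⁻ x in A, μ (S x) ^ F.card ∂(PP μ) := by
  have h := lintegral_indep μ F S hS hSF (Set.indicator A 1)
    (measurable_one.indicator hA) (fun x s hs y => by
      by_cases hx : x ∈ A
      · rw [Set.indicator_of_mem hx, Set.indicator_of_mem ((hAF s hs x y).mpr hx)]; rfl
      · rw [Set.indicator_of_notMem hx,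
          Set.indicator_of_notMem (fun h => hx ((hAF s hs x y).mp h))])
  have hSm : MeasurableSet {x : ℕ → X | ∀ s ∈ F, x s ∈ S x} := by
    have : {x : ℕ → X | ∀ s ∈ F, x s ∈ S x} = ⋂ s ∈ F, {x | x s ∈ S x} := by ext; simp
    rw [this]
    refine Finset.measurableSet_biInter _ fun s _ => ?_
    have h1 : Measurable fun x : ℕ → X => (x, x s) := measurable_id.prodMk (measurable_pi_apply s)
    exact h1 hS
  rw [← lintegral_indicator_one (hA.inter hSm), ← lintegral_indicator hA]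
  rw [show (∫⁻ x, (A ∩ {x | ∀ s ∈ F, x s ∈ S x}).indicator 1 x ∂(PP μ)) =
    ∫⁻ x, Set.indicator {x | ∀ s ∈ F, x s ∈ S x} (Set.indicator A 1) x ∂(PP μ) from ?_, h]
  · refine lintegral_congr fun x => ?_
    by_cases hx : x ∈ A
    · rw [Set.indicator_of_mem hx, Set.indicator_of_mem hx, Pi.one_apply, one_mul]
    · rw [Set.indicator_of_notMem hx, Set.indicator_of_notMem hx, zero_mul]
  · refine lintegral_congr fun x => ?_
    rw [Set.indicator_indicator, Set.inter_comm]

lemma Indep.inter {t : ℕ} {A B : Set (ℕ → X)} (hA : Indep t A) (hB : Indep t B) :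
    Indep t (A ∩ B) := fun x y => and_congr (hA x y) (hB x y)

/-- lower bound by resampling -/
lemma le_meas_upd (t : ℕ) {A : Set (ℕ → X)} (hA : MeasurableSet A) (hAt : Indep t A)
    {R : (ℕ → X) → Set X} (hR : MeasurableSet {q : (ℕ → X) × X | q.2 ∈ R q.1})
    (hRt : ∀ x y, R (Function.update x t y) = R x) {c : ℝ≥0∞} (hc : ∀ x ∈ A, c ≤ μ (R x)) :
    c * PP μ A ≤ PP μ (A ∩ {x | x t ∈ R x}) := by
  rw [meas_upd t hA hAt hR hRt, ← setLIntegral_const]
  exact setLIntegral_mono' hA hc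

/-- upper bound by resampling -/
lemma meas_upd_le (t : ℕ) {A : Set (ℕ → X)} (hA : MeasurableSet A) (hAt : Indep t A)
    {R : (ℕ → X) → Set X} (hR : MeasurableSet {q : (ℕ → X) × X | q.2 ∈ R q.1})
    (hRt : ∀ x y, R (Function.update x t y) = R x) {c : ℝ≥0∞} (hc : ∀ x ∈ A, μ (R x) ≤ c) :
    PP μ (A ∩ {x | x t ∈ R x}) ≤ c * PP μ A := by
  rw [meas_upd t hA hAt hR hRt, ← setLIntegral_const]
  exact setLIntegral_mono' hA hc

lemma le_meas_indep (F : Finset ℕ) {A : Set (ℕ → X)} (hA : MeasurableSet A)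
    (hAF : ∀ s ∈ F, Indep s A)
    {S : (ℕ → X) → Set X} (hS : MeasurableSet {q : (ℕ → X) × X | q.2 ∈ S q.1})
    (hSF : ∀ x, ∀ s ∈ F, ∀ y, S (Function.update x s y) = S x) {c : ℝ≥0∞}
    (hc : ∀ x ∈ A, c ≤ μ (S x)) :
    c ^ F.card * PP μ A ≤ PP μ (A ∩ {x | ∀ s ∈ F, x s ∈ S x}) := by
  rw [meas_indep F hA hAF hS hSF, ← setLIntegral_const]
  exact setLIntegral_mono' hA fun x hx => pow_le_pow_left₀ zero_le (hc x hx) _

lemma meas_indep_le (F : Finset ℕ) {A : Set (ℕ → X)} (hA : MeasurableSet A)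
    (hAF : ∀ s ∈ F, Indep s A)
    {S : (ℕ → X) → Set X} (hS : MeasurableSet {q : (ℕ → X) × X | q.2 ∈ S q.1})
    (hSF : ∀ x, ∀ s ∈ F, ∀ y, S (Function.update x s y) = S x) {c : ℝ≥0∞}
    (hc : ∀ x ∈ A, μ (S x) ≤ c) :
    PP μ (A ∩ {x | ∀ s ∈ F, x s ∈ S x}) ≤ c ^ F.card * PP μ A := by
  rw [meas_indep F hA hAF hS hSF, ← setLIntegral_const]
  exact setLIntegral_mono' hA fun x hx => pow_le_pow_left₀ zero_le (hc x hx) _

end Pool.Agent.T6.H59.NN
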