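import Pool.Agent.T6.H59.NN.Comb
import Pool.Agent.T6.H59.NN.BaseB

/-!
# The number of uncovered vertices grows like a power
-/

set_option autoImplicit false

namespace Pool.Agent.T6.H59.NN

open MeasureTheory Filter
open scoped ENNReal

variable {d : ℕ}

lemma reach_le {x : ℕ → Torus d} {v w : ℕ} (h : Relation.ReflTransGen (IsParent x) v w) :
    w ≤ v := by
  induction h with
  | refl => exact le_rfl
  | tail _ h ih => exact h.1.le.trans ih

lemma mem_unc_iff {x : ℕ → Torus d} {n v : ℕ} : v ∈ unc x n ↔ v < n ∧ Unc x v := by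
  classical
  constructor
  · intro h
    unfold unc at h
    rw [Finset.mem_filter] at h
    have hv := Finset.mem_range.mp h.1
    refine ⟨hv, ?_⟩
    rintro ⟨w, hw, p, hpw, q, hqw, hp, hpq, hF⟩
    have hwv := reach_le hw
    exact h.2 ⟨w, hw, p, q, ⟨by omega, by omega, hpq⟩, ⟨by omega, by omega, Or.inl hp⟩,
      by omega, hF⟩
  · rintro ⟨h1, h2⟩
    exact mem_unc h1 h2

lemma card_unc (x : ℕ → Torus d) (n : ℕ) : ((unc x n).card : ℝ) =
    ∑ v ∈ Finset.range n, Set.indicator {x : ℕ → Torus d | Unc x v} (fun _ => (1 : ℝ)) x := by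
  classical
  have h : unc x n = (Finset.range n).filter fun v => Unc x v := by
    ext v
    rw [mem_unc_iff, Finset.mem_filter, Finset.mem_range]
  rw [h, Finset.card_filter]
  push_cast
  refine Finset.sum_congr rfl fun v _ => ?_
  by_cases hv : Unc x v
  · rw [if_pos hv, Set.indicator_of_mem (by exact hv)]
  · rw [if_neg hv, Set.indicator_of_notMem (by exact hv)]

lemma integrable_ind (v : ℕ) : Integrable
    (Set.indicator {x : ℕ → Torus d | Unc x v} (fun _ => (1 : ℝ))) (P d) :=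
  (integrable_const 1).indicator (measurableSet_Unc v)

lemma integrable_card (n : ℕ) : Integrable (fun x => ((unc x n).card : ℝ)) (P d) := by
  simp_rw [card_unc]
  exact integrable_finset_sum _ fun v _ => integrable_ind v

lemma measurable_card (n : ℕ) : Measurable fun x : ℕ → Torus d => ((unc x n).card : ℝ) := by
  simp_rw [card_unc]
  exact Finset.measurable_sum _ fun v _ => measurable_const.indicator (measurableSet_Unc v)

lemma integral_card (n : ℕ) : ∫ x, ((unc x n).card : ℝ) ∂(P d) =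
    ∑ v ∈ Finset.range n, (P d).real {x : ℕ → Torus d | Unc x v} := by
  simp_rw [card_unc]
  rw [integral_finset_sum _ fun v _ => integrable_ind v]
  refine Finset.sum_congr rfl fun v _ => ?_
  rw [integral_indicator_const _ (measurableSet_Unc v), smul_eq_mul, mul_one]

/-- the expected number of good vertices -/
noncomputable def aa (d j0 N : ℕ) : ℝ := ∑ j ∈ Finset.Icc j0 N, (P d).real (GE d j)

lemma aa_le {j0 N n : ℕ} (h : N < n) : aa d j0 N ≤ ∫ x, ((unc x n).card : ℝ) ∂(P d) := by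
  rw [integral_card]
  unfold aa
  refine le_trans (Finset.sum_le_sum (g := fun v => (P d).real {x : ℕ → Torus d | Unc x v})
    fun v _ => measureReal_mono fun x hx => hx.1) ?_
  refine Finset.sum_le_sum_of_subset_of_nonneg ?_ fun v _ _ => measureReal_nonneg
  intro v hv
  have := Finset.mem_Icc.mp hv
  exact Finset.mem_range.mpr (by omega)

/-- doubling -/
lemma aa_double (hd : 2 ^ 20 ≤ d) {j0 : ℕ} (hj0 : 0 < j0) (hsm : ∀ j ≥ j0, rr d j ≤ 1 / 32)
    (N : ℕ) : 2 * aa d j0 N ≤ aa d j0 (2 ^ 16 * 4 ^ d * N) := by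
  unfold aa
  rw [Finset.mul_sum]
  have h1 : ∀ j ∈ Finset.Icc j0 N, 2 * (P d).real (GE d j) ≤
      ∑ t ∈ Finset.Icc j0 (2 ^ 16 * 4 ^ d * N), (P d).real (GG d j t) := by
    intro j hj
    obtain ⟨hj1, hj2⟩ := Finset.mem_Icc.mp hj
    refine (two_children hd (hj0.trans_le hj1) (hsm j hj1)).trans ?_
    refine Finset.sum_le_sum_of_subset_of_nonneg ?_ fun v _ _ => measureReal_nonneg
    intro t ht
    obtain ⟨ht1, ht2⟩ := Finset.mem_Ioc.mp ht
    have h2 : j ≤ 4 ^ d * j := Nat.le_mul_of_pos_left _ (by positivity)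
    refine Finset.mem_Icc.mpr ⟨by omega, ht2.trans ?_⟩
    rw [← mul_assoc]
    exact Nat.mul_le_mul_left _ hj2
  refine (Finset.sum_le_sum h1).trans ?_
  rw [Finset.sum_comm]
  refine Finset.sum_le_sum fun t _ => ?_
  have hdis : Set.PairwiseDisjoint ((Finset.Icc j0 N : Finset ℕ) : Set ℕ)
      (fun j => GG d j t) := by
    intro i _ j _ hij
    rw [Function.onFun, Set.disjoint_left]
    intro x hx1 hx2
    exact hij (hx1.2.unique hx2.2)
  rw [← measureReal_biUnion_finset hdis fun j _ => m_GG j t]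
  refine measureReal_mono ?_
  intro x hx
  obtain ⟨j, -, hj⟩ := Set.mem_iUnion₂.mp hx
  exact hj.1

lemma aa_pow (hd : 2 ^ 20 ≤ d) {j0 : ℕ} (hj0 : 0 < j0) (hsm : ∀ j ≥ j0, rr d j ≤ 1 / 32)
    (N m : ℕ) : 2 ^ m * aa d j0 N ≤ aa d j0 ((2 ^ 16 * 4 ^ d) ^ m * N) := by
  induction m with
  | zero => simp
  | succ m ih =>
    have h := aa_double hd hj0 hsm ((2 ^ 16 * 4 ^ d) ^ m * N)
    rw [← mul_assoc, ← pow_succ'] at h
    refine le_trans ?_ h
    rw [pow_succ', mul_assoc]
    linarith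

/-- a power lower bound for the expectation -/
theorem power_lower (hd : 2 ^ 20 ≤ d) : ∃ c > 0, ∃ γ > 0, ∀ n : ℕ, 1 ≤ n →
    c * (n : ℝ) ^ (γ : ℝ) ≤ ∫ x, ((unc x n).card : ℝ) ∂(P d) := by
  have hd1 : 0 < d := lt_of_lt_of_le (by norm_num) hd
  obtain ⟨j0, hj0, hsm⟩ := exists_rr_le hd1 (c := 1 / 32) (by norm_num)
  set ts : ℕ := max j0 (2 ^ d + 1) with hts
  have hts1 : j0 ≤ ts := le_max_left _ _
  have hts2 : 2 ^ d < ts := by
    have := le_max_right j0 (2 ^ d + 1)
    omega
  have hpos := base_pos hd hts2 (hsm ts hts1)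
  have he0 : 0 < aa d j0 ts := by
    have h1 : 0 < (P d).real (GE d ts) :=
      ENNReal.toReal_pos hpos.ne' (measure_ne_top _ _)
    refine lt_of_lt_of_le h1 ?_
    unfold aa
    exact Finset.single_le_sum (f := fun j => (P d).real (GE d j))
      (fun _ _ => measureReal_nonneg) (Finset.mem_Icc.mpr ⟨hts1, le_rfl⟩)
  set e0 := aa d j0 ts with he
  set K : ℕ := 2 ^ 16 * 4 ^ d with hK
  have hK1 : 1 < K := by
    have : 1 ≤ 4 ^ d := Nat.one_le_pow _ _ (by norm_num)
    omega
  have hK1' : (1 : ℝ) < K := by exact_mod_cast hK1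
  set T : ℕ := ts + 1 with hT
  have hT0 : (0 : ℝ) < T := by positivity
  set γ : ℝ := Real.logb K 2 with hγ
  have hγ0 : 0 < γ := Real.logb_pos hK1' (by norm_num)
  have hKγ : (K : ℝ) ^ γ = 2 := Real.rpow_logb (by linarith) (by linarith) (by norm_num)
  have hTγ : 0 < (T : ℝ) ^ γ := Real.rpow_pos_of_pos hT0 _
  refine ⟨min (e0 / 2) 1 / (T : ℝ) ^ γ, by positivity, γ, hγ0, fun n hn => ?_⟩
  have hn0 : (0 : ℝ) < n := by exact_mod_cast hn
  rw [div_mul_eq_mul_div, div_le_iff₀ hTγ]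
  rcases Nat.eq_zero_or_pos (n / T) with hq | hq
  · -- small `n`
    have h1 : n < T := by
      rcases Nat.div_eq_zero_iff.mp hq with h | h
      · omega
      · exact h
    have h2 : (n : ℝ) ^ γ ≤ (T : ℝ) ^ γ :=
      Real.rpow_le_rpow hn0.le (by exact_mod_cast h1.le) hγ0.le
    have h3 : (1 : ℝ) ≤ ∫ x, ((unc x n).card : ℝ) ∂(P d) := by
      have h4 : ∫ _x : ℕ → Torus d, (1 : ℝ) ∂(P d) = 1 := by simp
      refine h4.symm.le.trans ?_
      refine integral_mono (integrable_const 1) (integrable_card n) fun x => ?_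
      have h5 : 0 ∈ unc x n := mem_unc (by omega) (unc_zero x)
      have h6 : 1 ≤ (unc x n).card := Finset.card_pos.mpr ⟨0, h5⟩
      have h7 : (1 : ℝ) ≤ ((unc x n).card : ℝ) := Nat.one_le_cast.mpr h6
      exact h7
    calc min (e0 / 2) 1 * (n : ℝ) ^ γ ≤ 1 * (T : ℝ) ^ γ :=
          mul_le_mul (min_le_right _ _) h2 (by positivity) zero_le_one
      _ ≤ _ := mul_le_mul_of_nonneg_right h3 hTγ.le
  · set m : ℕ := Nat.log K (n / T) with hm
    have h1 : K ^ m ≤ n / T := Nat.pow_log_le_self K hq.ne'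
    have h2 : n / T < K ^ (m + 1) := Nat.lt_pow_succ_log_self hK1 _
    have h3 : K ^ m * T ≤ n := (Nat.mul_le_mul_right _ h1).trans (Nat.div_mul_le_self _ _)
    have h4 : n < K ^ (m + 1) * T := by
      rwa [Nat.div_lt_iff_lt_mul (by omega)] at h2
    have h5 : K ^ m * ts < n := by
      have h6 : 0 < K ^ m := by positivity
      rw [hT, mul_add, mul_one] at h3
      omega
    have h6 : (n : ℝ) ^ γ ≤ 2 ^ (m + 1) * (T : ℝ) ^ γ := by
      have h7 : (n : ℝ) ≤ (K : ℝ) ^ (m + 1) * T := by exact_mod_cast h4.le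
      refine (Real.rpow_le_rpow hn0.le h7 hγ0.le).trans (le_of_eq ?_)
      rw [Real.mul_rpow (by positivity) hT0.le, ← Real.rpow_natCast, ← Real.rpow_mul (by positivity),
        mul_comm ((m + 1 : ℕ) : ℝ) γ, Real.rpow_mul (by positivity), hKγ, Real.rpow_natCast]
    have h7 := (aa_pow hd hj0 hsm ts m).trans (aa_le h5)
    calc min (e0 / 2) 1 * (n : ℝ) ^ γ ≤ (e0 / 2) * (2 ^ (m + 1) * (T : ℝ) ^ γ) :=
          mul_le_mul (min_le_left _ _) h6 (by positivity) (by positivity)
      _ = 2 ^ m * e0 * (T : ℝ) ^ γ := by ring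
      _ ≤ _ := mul_le_mul_of_nonneg_right h7 hTγ.le

/-- powers beat powers of the logarithm -/
lemma log_lt (c γ : ℝ) (hc : 0 < c) (hγ : 0 < γ) (C k : ℝ) :
    ∀ᶠ n : ℕ in atTop, |C| * Real.log n ^ k + 1 < c * (n : ℝ) ^ γ := by
  have h1 := (isLittleO_log_rpow_rpow_atTop k hγ).comp_tendsto tendsto_natCast_atTop_atTop
  have h2 := h1.def (c := c / (2 * (|C| + 1))) (by positivity)
  have h3 : Tendsto (fun n : ℕ => c / 2 * (n : ℝ) ^ γ) atTop atTop :=
    ((tendsto_rpow_atTop hγ).comp tendsto_natCast_atTop_atTop).const_mul_atTop (by positivity)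
  filter_upwards [h2, h3.eventually_gt_atTop 1, eventually_ge_atTop 1] with n h4 h5 h6
  have hn0 : (1 : ℝ) ≤ n := by exact_mod_cast h6
  have hlog : 0 ≤ Real.log n := Real.log_nonneg hn0
  simp only [Function.comp_apply, Real.norm_eq_abs] at h4
  rw [abs_of_nonneg (Real.rpow_nonneg hlog k),
    abs_of_nonneg (Real.rpow_nonneg (by linarith) γ)] at h4
  have h7 : |C| * Real.log n ^ k ≤ c / 2 * (n : ℝ) ^ γ := by
    have h8 : 0 ≤ (n : ℝ) ^ γ := Real.rpow_nonneg (by linarith) γ
    calc |C| * Real.log n ^ k ≤ (|C| + 1) * (c / (2 * (|C| + 1)) * (n : ℝ) ^ γ) :=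
          mul_le_mul (by linarith) h4 (Real.rpow_nonneg hlog k) (by positivity)
      _ = c / 2 * (n : ℝ) ^ γ := by
          field_simp
  linarith

/-- a bound for the expectation from a bound in probability -/
lemma exp_le_of_prob {n : ℕ} (hn : 1 ≤ n) {B : ℝ} (hB : 0 ≤ B)
    (h : 1 - 1 / (n : ℝ) ≤ (P d).real {x | ((unc x n).card : ℝ) ≤ B}) :
    ∫ x, ((unc x n).card : ℝ) ∂(P d) ≤ B + 1 := by
  have hn0 : (0 : ℝ) < n := by exact_mod_cast hn
  set A : Set (ℕ → Torus d) := {x | ((unc x n).card : ℝ) ≤ B} with hA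
  have hAm : MeasurableSet A := measurableSet_le (measurable_card n) measurable_const
  have h1 : ∀ x : ℕ → Torus d, ((unc x n).card : ℝ) ≤ B + Set.indicator Aᶜ (fun _ => (n : ℝ)) x := by
    intro x
    by_cases hx : x ∈ A
    · rw [Set.indicator_of_notMem (by simpa using hx), add_zero]
      exact hx
    · rw [Set.indicator_of_mem (by simpa using hx)]
      have h2 : (unc x n).card ≤ n := by
        refine (Finset.card_le_card (t := Finset.range n) ?_).trans (by simp)
        intro v hv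
        exact Finset.mem_range.mpr (mem_unc_iff.mp hv).1
      have : ((unc x n).card : ℝ) ≤ n := by exact_mod_cast h2
      linarith
  have h3 : Integrable (fun x : ℕ → Torus d => B + Set.indicator Aᶜ (fun _ => (n : ℝ)) x) (P d) :=
    (integrable_const B).add ((integrable_const (n : ℝ)).indicator hAm.compl)
  refine (integral_mono (integrable_card n) h3 h1).trans ?_
  rw [integral_add (integrable_const B) ((integrable_const (n : ℝ)).indicator hAm.compl),
    integral_const, integral_indicator_const _ hAm.compl, smul_eq_mul, smul_eq_mul,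
    probReal_univ, one_mul, probReal_compl_eq_one_sub hAm]
  have h4 : (1 - (P d).real A) * n ≤ 1 := by
    have h5 : 1 - (P d).real A ≤ 1 / n := by linarith
    calc (1 - (P d).real A) * n ≤ 1 / n * n := mul_le_mul_of_nonneg_right h5 hn0.le
      _ = 1 := by field_simp
  linarith

theorem main (hd : 2 ^ 20 ≤ d) :
    (∀ n : ℕ, Integrable (fun x => ((unc x n).card : ℝ)) (unif d)) ∧
    (∃ c > 0, ∃ γ > 0, ∀ n : ℕ, 1 ≤ n →
      c * (n : ℝ) ^ (γ : ℝ) ≤ ∫ x, ((unc x n).card : ℝ) ∂(unif d)) ∧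
    (∀ C k : ℝ, ∀ᶠ n : ℕ in atTop,
      C * Real.log n ^ k < ∫ x, ((unc x n).card : ℝ) ∂(unif d)) ∧
    (∀ C k : ℝ, ∀ᶠ n : ℕ in atTop,
      (unif d).real {x | ((unc x n).card : ℝ) ≤ C * Real.log n ^ k} < 1 - 1 / n) := by
  have hu : unif d = P d := rfl
  rw [hu]
  obtain ⟨c, hc, γ, hγ, hlow⟩ := power_lower hd
  refine ⟨integrable_card, ⟨c, hc, γ, hγ, hlow⟩, fun C k => ?_, fun C k => ?_⟩
  · filter_upwards [log_lt c γ hc hγ C k, eventually_ge_atTop 1] with n h1 h2
    have hn0 : (1 : ℝ) ≤ n := by exact_mod_cast h2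
    have hlog : 0 ≤ Real.log n ^ k := Real.rpow_nonneg (Real.log_nonneg hn0) k
    have h3 : C * Real.log n ^ k ≤ |C| * Real.log n ^ k :=
      mul_le_mul_of_nonneg_right (le_abs_self C) hlog
    have h4 := hlow n h2
    linarith
  · filter_upwards [log_lt c γ hc hγ C k, eventually_ge_atTop 1] with n h1 h2
    have hn0 : (1 : ℝ) ≤ n := by exact_mod_cast h2
    have hlog : 0 ≤ Real.log n ^ k := Real.rpow_nonneg (Real.log_nonneg hn0) k
    have h3 : C * Real.log n ^ k ≤ |C| * Real.log n ^ k :=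
      mul_le_mul_of_nonneg_right (le_abs_self C) hlog
    have h4 := hlow n h2
    by_contra hcon
    rw [not_lt] at hcon
    have h5 : (P d).real {x : ℕ → Torus d | ((unc x n).card : ℝ) ≤ C * Real.log n ^ k} ≤
        (P d).real {x | ((unc x n).card : ℝ) ≤ |C| * Real.log n ^ k} :=
      measureReal_mono fun x hx => le_trans hx h3
    have h6 := exp_le_of_prob h2 (B := |C| * Real.log n ^ k) (by positivity) (hcon.trans h5)
    linarith

end Pool.Agent.T6.H59.NN
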