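import Pool.Agent.T6.H59.NN.Meas

/-!
# Geometry of small balls of the torus
-/

set_option autoImplicit false

namespace Pool.Agent.T6.H59.NN

open MeasureTheory
open scoped ENNReal Pointwise

variable {d : ℕ}

instance : IsProbabilityMeasure (volume : Measure UnitAddCircle) :=
  ⟨UnitAddCircle.measure_univ⟩

/-- square of the Euclidean norm -/
def esq (a : Fin d → ℝ) : ℝ := ∑ i, a i ^ 2

/-- the projection to the torus -/
noncomputable def pr (a : Fin d → ℝ) : Torus d := fun i => (a i : UnitAddCircle)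

/-- the fundamental box -/
def box (d : ℕ) : Set (Fin d → ℝ) := Set.pi Set.univ fun _ => Set.Ioc (-(1 / 2)) (1 / 2)

lemma esq_nonneg (a : Fin d → ℝ) : 0 ≤ esq a := Finset.sum_nonneg fun i _ => sq_nonneg _

lemma coord_le (a : Fin d → ℝ) (i : Fin d) : |a i| ≤ Real.sqrt (esq a) := by
  rw [← Real.sqrt_sq_eq_abs]
  exact Real.sqrt_le_sqrt (Finset.single_le_sum (f := fun i => a i ^ 2)
    (fun i _ => sq_nonneg _) (Finset.mem_univ i))

lemma norm_coe {x : ℝ} (hx : |x| ≤ 1 / 2) : ‖(x : UnitAddCircle)‖ = |x| := by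
  have h := (AddCircle.norm_coe_eq_abs_iff (p := (1 : ℝ)) (x := x) one_ne_zero).mpr
  rw [abs_one] at h
  exact h hx

lemma norm_coe_le (x : ℝ) : ‖(x : UnitAddCircle)‖ ≤ |x| := by
  rw [UnitAddCircle.norm_eq]
  simpa using round_le x 0

lemma dst_pr {a b : Fin d → ℝ} (h : ∀ i, |a i - b i| ≤ 1 / 2) :
    dst (pr a) (pr b) = Real.sqrt (esq (a - b)) := by
  unfold dst esq pr
  congr 1
  refine Finset.sum_congr rfl fun i _ => ?_
  rw [← AddCircle.coe_sub, norm_coe (h i), sq_abs, Pi.sub_apply]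

lemma dst_pr_le (a b : Fin d → ℝ) : dst (pr a) (pr b) ≤ Real.sqrt (esq (a - b)) := by
  unfold dst esq pr
  refine Real.sqrt_le_sqrt (Finset.sum_le_sum fun i _ => ?_)
  rw [← AddCircle.coe_sub, Pi.sub_apply, ← sq_abs (a i - b i)]
  have := norm_coe_le (a i - b i)
  have h0 := norm_nonneg ((a i - b i : ℝ) : UnitAddCircle)
  exact pow_le_pow_left₀ h0 this 2

lemma pr_zero : pr (0 : Fin d → ℝ) = 0 := by
  funext i
  simp [pr]

lemma dst_pr_zero {a : Fin d → ℝ} (h : ∀ i, |a i| ≤ 1 / 2) :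
    dst (pr a) 0 = Real.sqrt (esq a) := by
  rw [← pr_zero, dst_pr (by simpa using h), sub_zero]

lemma mem_box_abs {a : Fin d → ℝ} (h : a ∈ box d) (i : Fin d) : |a i| ≤ 1 / 2 := by
  have := h i (Set.mem_univ i)
  rw [abs_le]
  exact ⟨this.1.le, this.2⟩

lemma mp_pr : MeasurePreserving (pr : (Fin d → ℝ) → Torus d) (volume.restrict (box d)) volume := by
  have h1 := measurePreserving_pi (fun _ : Fin d => volume.restrict (Set.Ioc (-(1 / 2) : ℝ)
    (-(1 / 2) + 1))) (fun _ : Fin d => (volume : Measure UnitAddCircle))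
    (fun _ => UnitAddCircle.measurePreserving_mk (-(1 / 2)))
  rw [← Measure.restrict_pi_pi] at h1
  have h2 : (-(1 / 2) + 1 : ℝ) = 1 / 2 := by norm_num
  rw [h2] at h1
  exact h1

lemma exists_lift (y : Torus d) : ∃ a ∈ box d, pr a = y := by
  have h : ∀ i, ∃ s : ℝ, s ∈ Set.Ioc (-(1 / 2) : ℝ) (1 / 2) ∧ (s : UnitAddCircle) = y i := by
    intro i
    have h2 : (-(1 / 2) + 1 : ℝ) = 1 / 2 := by norm_num
    have := AddCircle.coe_image_Ioc_eq (1 : ℝ) (-(1 / 2))
    have h3 : y i ∈ ((↑) : ℝ → UnitAddCircle) '' Set.Ioc (-(1 / 2)) (-(1 / 2) + 1) := by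
      rw [this]; trivial
    rw [h2] at h3
    exact h3
  choose a ha hay using h
  exact ⟨a, fun i _ => ha i, funext hay⟩

lemma vol_lift {S : Set (Torus d)} (hS : MeasurableSet S) :
    volume S = volume ({a | pr a ∈ S} ∩ box d) := by
  rw [← mp_pr.measure_preimage hS.nullMeasurableSet, Measure.restrict_apply' ?_]
  · rfl
  · exact MeasurableSet.univ_pi fun _ => measurableSet_Ioc

/-- the volume of the Euclidean unit ball -/
noncomputable def ve (d : ℕ) : ℝ := (volume {a : Fin d → ℝ | esq a ≤ 1}).toReal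

lemma continuous_esq : Continuous (esq : (Fin d → ℝ) → ℝ) := by
  unfold esq; fun_prop

lemma eball_finite : volume {a : Fin d → ℝ | esq a ≤ 1} ≠ ∞ := by
  refine ne_top_of_le_ne_top ?_ (measure_mono (t := Set.Icc (fun _ => (-1 : ℝ)) fun _ => 1) ?_)
  · rw [Real.volume_Icc_pi]
    exact (ENNReal.prod_lt_top fun _ _ => ENNReal.ofReal_lt_top).ne
  · intro a ha
    have h : ∀ i, |a i| ≤ 1 := fun i =>
      (coord_le a i).trans (by rw [Real.sqrt_le_one]; exact ha)
    exact ⟨fun i => (abs_le.mp (h i)).1, fun i => (abs_le.mp (h i)).2⟩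

lemma evol {r : ℝ} (hr : 0 < r) :
    volume {a : Fin d → ℝ | esq a ≤ r ^ 2} = ENNReal.ofReal (r ^ d * ve d) := by
  have h : {a : Fin d → ℝ | esq a ≤ r ^ 2} = r • {a : Fin d → ℝ | esq a ≤ 1} := by
    ext a
    rw [Set.mem_smul_set_iff_inv_smul_mem₀ hr.ne']
    simp only [Set.mem_ofPred_eq, esq, Pi.smul_apply, smul_eq_mul, mul_pow, ← Finset.mul_sum]
    rw [inv_pow, inv_mul_le_iff₀ (by positivity), mul_one]
  rw [h, Measure.addHaar_smul, Module.finrank_fin_fun, abs_of_pos (by positivity), ve,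
    ENNReal.ofReal_mul (by positivity), ENNReal.ofReal_toReal eball_finite]

lemma evol_shift {r : ℝ} (hr : 0 < r) (c : Fin d → ℝ) :
    volume {a : Fin d → ℝ | esq (a - c) ≤ r ^ 2} = ENNReal.ofReal (r ^ d * ve d) := by
  rw [← evol hr]
  have h : {a : Fin d → ℝ | esq (a - c) ≤ r ^ 2} =
      (fun a => a + (-c)) ⁻¹' {a : Fin d → ℝ | esq a ≤ r ^ 2} := by
    ext a
    simp [sub_eq_add_neg]
  rw [h, measure_preimage_add_right]

/-- inscribed cube -/
lemma ve_ge (hd : 0 < d) : (2 / Real.sqrt d) ^ d ≤ ve d := by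
  have hd' : (0 : ℝ) < d := by exact_mod_cast hd
  have h1 : Set.Icc (fun _ : Fin d => -(1 / Real.sqrt d)) (fun _ => 1 / Real.sqrt d) ⊆
      {a : Fin d → ℝ | esq a ≤ 1} := by
    rintro a ⟨h1, h2⟩
    have h : ∀ i, a i ^ 2 ≤ 1 / d := by
      intro i
      have := abs_le.mpr ⟨h1 i, h2 i⟩
      calc a i ^ 2 = |a i| ^ 2 := (sq_abs _).symm
        _ ≤ (1 / Real.sqrt d) ^ 2 := pow_le_pow_left₀ (abs_nonneg _) this 2
        _ = 1 / d := by rw [div_pow, Real.sq_sqrt hd'.le, one_pow]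
    calc esq a ≤ ∑ _i : Fin d, (1 / d : ℝ) := Finset.sum_le_sum fun i _ => h i
      _ = 1 := by
        rw [Finset.sum_const, Finset.card_univ, Fintype.card_fin, nsmul_eq_mul]
        field_simp
  have h2 := measure_mono (μ := volume) h1
  rw [Real.volume_Icc_pi] at h2
  simp only [Finset.prod_const, Finset.card_univ, Fintype.card_fin] at h2
  have h3 := ENNReal.toReal_mono eball_finite h2
  rw [ENNReal.toReal_pow, ENNReal.toReal_ofReal (by
    have : 0 ≤ 1 / Real.sqrt d := by positivity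
    linarith)] at h3
  have h4 : 2 / Real.sqrt d = 1 / Real.sqrt d - -(1 / Real.sqrt d) := by ring
  rw [h4]
  exact h3

lemma ve_pos (hd : 0 < d) : 0 < ve d := by
  have hd' : (0 : ℝ) < d := by exact_mod_cast hd
  exact lt_of_lt_of_le (by positivity) (ve_ge hd)

/-- the volume of the balls of the torus -/
noncomputable def V (d : ℕ) (r : ℝ) : ℝ≥0∞ := volume {y : Torus d | dst y 0 ≤ r}

lemma measurableSet_ball (p : Torus d) (r : ℝ) : MeasurableSet {y : Torus d | dst y p ≤ r} :=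
  measurableSet_le (meas_dst measurable_id measurable_const) measurable_const

lemma V_mono : Monotone (V d) := fun _ _ h => measure_mono fun _ hy => le_trans hy h

lemma V_le_one (r : ℝ) : V d r ≤ 1 := prob_le_one

lemma vol_ball (p : Torus d) (r : ℝ) : volume {y : Torus d | dst y p ≤ r} = V d r := by
  unfold V
  have h : {y : Torus d | dst y p ≤ r} = (fun y => y + (-p)) ⁻¹' {y : Torus d | dst y 0 ≤ r} := by
    ext y
    have := dst_add y p (-p)
    simp only [Set.mem_preimage, Set.mem_ofPred_eq]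
    rw [← this, add_neg_cancel]
  rw [h, measure_preimage_add_right]

lemma V_small {r : ℝ} (hr : 0 < r) (hr' : r ≤ 1 / 4) :
    V d r = ENNReal.ofReal (r ^ d * ve d) := by
  unfold V
  rw [vol_lift (measurableSet_ball 0 r), ← evol hr]
  congr 1
  ext a
  simp only [Set.mem_inter_iff, Set.mem_ofPred_eq]
  constructor
  · rintro ⟨h1, h2⟩
    rw [dst_pr_zero (mem_box_abs h2)] at h1
    have := Real.sqrt_nonneg (esq a)
    rw [← Real.sq_sqrt (esq_nonneg a)]
    exact pow_le_pow_left₀ this h1 2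
  · intro h
    have h1 : Real.sqrt (esq a) ≤ r := by
      rw [← Real.sqrt_sq hr.le]; exact Real.sqrt_le_sqrt h
    have h2 : ∀ i, |a i| ≤ 1 / 4 := fun i => (coord_le a i).trans (h1.trans hr')
    refine ⟨?_, fun i _ => ?_⟩
    · rw [dst_pr_zero fun i => (h2 i).trans (by norm_num)]
      exact h1
    · have := abs_le.mp (h2 i)
      exact ⟨by linarith, by linarith⟩

/-- the basic estimate for the forbidden region of an edge -/
lemma lens (p q : Torus d) {r : ℝ} (hr : 0 < r) (hr' : r ≤ 1 / 4) (h1 : dst p q ≤ 1 / 4)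
    (h2 : dst p q ≤ 64 * r) :
    volume {y : Torus d | dst y p ≤ r ∧ dst y q < dst p q} ≤
      ENNReal.ofReal (Real.sqrt (1 - 1 / 16384) ^ d) * V d r := by
  -- reduction to `p = 0`
  have hred : volume {y : Torus d | dst y p ≤ r ∧ dst y q < dst p q} =
      volume {y : Torus d | dst y 0 ≤ r ∧ dst y (q - p) < dst 0 (q - p)} := by
    have h : {y : Torus d | dst y p ≤ r ∧ dst y q < dst p q} = (fun y => y + (-p)) ⁻¹'
        {y : Torus d | dst y 0 ≤ r ∧ dst y (q - p) < dst 0 (q - p)} := by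
      ext y
      simp only [Set.mem_preimage, Set.mem_ofPred_eq]
      have e1 := dst_add y p (-p)
      have e2 := dst_add y q (-p)
      have e3 := dst_add p q (-p)
      rw [add_neg_cancel] at e1 e3
      rw [← sub_eq_add_neg q] at e2 e3
      rw [e1, e2, e3]
    rw [h, measure_preimage_add_right]
  rw [hred]
  have hpq : dst 0 (q - p) = dst p q := by
    have e3 := dst_add p q (-p)
    rw [add_neg_cancel, ← sub_eq_add_neg q] at e3
    exact e3
  rw [← hpq] at h1 h2
  obtain ⟨b, hb, hbq⟩ := exists_lift (q - p)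
  rw [← hbq] at h1 h2 ⊢
  rw [dst_comm, dst_pr_zero (mem_box_abs hb)] at h1 h2
  set l := Real.sqrt (esq b) with hl
  have hl0 : 0 ≤ l := Real.sqrt_nonneg _
  have hlsq : l ^ 2 = esq b := Real.sq_sqrt (esq_nonneg b)
  have hkap : 0 < Real.sqrt (1 - 1 / 16384 : ℝ) := Real.sqrt_pos.mpr (by norm_num)
  have hks : Real.sqrt (1 - 1 / 16384 : ℝ) ^ 2 = 1 - 1 / 16384 := Real.sq_sqrt (by norm_num)
  rcases hl0.eq_or_lt with hl00 | hlpos
  · -- degenerate case
    have : {y : Torus d | dst y 0 ≤ r ∧ dst y (pr b) < dst 0 (pr b)} = ∅ := by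
      ext y
      simp only [Set.mem_ofPred_eq, Set.mem_empty_iff_false, iff_false, not_and, not_lt]
      intro _
      rw [dst_comm 0, dst_pr_zero (mem_box_abs hb), ← hl, ← hl00]
      exact dst_nonneg _ _
    rw [this, measure_empty]
    exact zero_le
  -- lift
  have hmeas : MeasurableSet {y : Torus d | dst y 0 ≤ r ∧ dst y (pr b) < dst 0 (pr b)} :=
    (measurableSet_ball 0 r).inter
      (measurableSet_lt (meas_dst measurable_id measurable_const) measurable_const)
  rw [vol_lift hmeas, V_small hr hr', ← ENNReal.ofReal_mul (by positivity)]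
  have hinc : ∀ a : Fin d → ℝ, pr a ∈ {y : Torus d | dst y 0 ≤ r ∧ dst y (pr b) < dst 0 (pr b)} →
      a ∈ box d → esq a ≤ r ^ 2 ∧ esq (a - b) < l ^ 2 := by
    rintro a ⟨ha1, ha2⟩ hab
    rw [dst_pr_zero (mem_box_abs hab)] at ha1
    have hai : ∀ i, |a i| ≤ 1 / 4 := fun i => (coord_le a i).trans (ha1.trans hr')
    have hbi : ∀ i, |b i| ≤ 1 / 4 := fun i => (coord_le b i).trans h1
    have habi : ∀ i, |a i - b i| ≤ 1 / 2 := fun i => by
      have := abs_sub (a i) (b i)
      linarith [hai i, hbi i]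
    rw [dst_pr habi, dst_comm 0, dst_pr_zero (mem_box_abs hb), ← hl] at ha2
    refine ⟨?_, ?_⟩
    · rw [← Real.sq_sqrt (esq_nonneg a)]
      exact pow_le_pow_left₀ (Real.sqrt_nonneg _) ha1 2
    · rw [← Real.sq_sqrt (esq_nonneg (a - b))]
      exact pow_lt_pow_left₀ ha2 (Real.sqrt_nonneg _) two_ne_zero
  -- expansion of the square
  have hexp : ∀ (a : Fin d → ℝ) (s : ℝ), esq (a - s • b) =
      esq a - 2 * s * (∑ i, a i * b i) + s ^ 2 * l ^ 2 := by
    intro a s
    rw [hlsq]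
    unfold esq
    simp only [Pi.sub_apply, Pi.smul_apply, smul_eq_mul]
    rw [Finset.mul_sum, Finset.mul_sum, ← Finset.sum_sub_distrib, ← Finset.sum_add_distrib]
    exact Finset.sum_congr rfl fun i _ => by ring
  have hkey : ∃ c : Fin d → ℝ, ∀ a : Fin d → ℝ, esq a ≤ r ^ 2 → esq (a - b) < l ^ 2 →
      esq (a - c) ≤ (Real.sqrt (1 - 1 / 16384) * r) ^ 2 := by
    by_cases hcase : r ^ 2 ≤ 2 * l ^ 2
    · set s : ℝ := r ^ 2 / (2 * l ^ 2) with hs
      have hs1 : s ≤ 1 := by rw [hs, div_le_one (by positivity)]; exact hcase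
      have hs0 : 0 ≤ s := by positivity
      refine ⟨s • b, fun a ha1 ha2 => ?_⟩
      have e1 := hexp a 1
      rw [one_smul] at e1
      rw [e1] at ha2
      rw [hexp a s, mul_pow, hks]
      have hdot : esq a / 2 < ∑ i, a i * b i := by linarith
      have h3 : esq a - 2 * s * (∑ i, a i * b i) + s ^ 2 * l ^ 2 ≤
          esq a * (1 - s) + s ^ 2 * l ^ 2 := by
        nlinarith [mul_le_mul_of_nonneg_left hdot.le hs0]
      have h4 : esq a * (1 - s) ≤ r ^ 2 * (1 - s) :=
        mul_le_mul_of_nonneg_right ha1 (by linarith)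
      have h5 : s * l ^ 2 = r ^ 2 / 2 := by rw [hs]; field_simp
      have h6 : s ^ 2 * l ^ 2 = s * (r ^ 2 / 2) := by rw [← h5]; ring
      have h7 : 1 / 8192 ≤ s := by
        rw [hs, le_div_iff₀ (by positivity)]
        have : l ^ 2 ≤ (64 * r) ^ 2 := pow_le_pow_left₀ hl0 h2 2
        nlinarith
      nlinarith [mul_le_mul_of_nonneg_right h7 (sq_nonneg r)]
    · refine ⟨b, fun a _ ha2 => ?_⟩
      rw [mul_pow, hks]
      nlinarith [not_le.mp hcase, sq_nonneg r]
  obtain ⟨c, hc⟩ := hkey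
  have hrk : 0 < Real.sqrt (1 - 1 / 16384) * r := mul_pos hkap hr
  calc volume ({a | pr a ∈ {y : Torus d | dst y 0 ≤ r ∧ dst y (pr b) < dst 0 (pr b)}} ∩ box d)
      ≤ volume {a : Fin d → ℝ | esq (a - c) ≤ (Real.sqrt (1 - 1 / 16384) * r) ^ 2} :=
        measure_mono fun a ha => by
          obtain ⟨h3, h4⟩ := hinc a ha.1 ha.2
          exact hc a h3 h4
    _ = ENNReal.ofReal (Real.sqrt (1 - 1 / 16384) ^ d * (r ^ d * ve d)) := by
        rw [evol_shift hrk, mul_pow]
        congr 1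
        ring

end Pool.Agent.T6.H59.NN
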