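import Pool.Agent.T6.H59.NN.Det

/-!
# Measurability
-/

set_option autoImplicit false

namespace Pool.Agent.T6.H59.NN

open MeasureTheory

variable {d : ℕ}

lemma measurable_dst : Measurable fun q : Torus d × Torus d => dst q.1 q.2 :=
  continuous_dst.measurable

lemma meas_dst {Ω : Type*} [MeasurableSpace Ω] {f g : Ω → Torus d} (hf : Measurable f)
    (hg : Measurable g) : Measurable fun ω => dst (f ω) (g ω) := by
  have h1 : Measurable fun ω => (f ω, g ω) := hf.prodMk hg
  have h := measurable_dst.comp h1
  exact h

lemma measurable_dst_eval (i j : ℕ) : Measurable fun x : ℕ → Torus d => dst (x i) (x j) :=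
  meas_dst (measurable_pi_apply i) (measurable_pi_apply j)

lemma measurableSet_isParent (i j : ℕ) : MeasurableSet {x : ℕ → Torus d | IsParent x i j} := by
  unfold IsParent
  by_cases h : j < i
  · simp only [h, true_and]
    have : {x : ℕ → Torus d | ∀ k < i, k ≠ j → dst (x i) (x j) < dst (x i) (x k)} =
        ⋂ k : ℕ, ⋂ _ : k < i, ⋂ _ : k ≠ j, {x | dst (x i) (x j) < dst (x i) (x k)} := by
      ext x; simp
    rw [this]
    exact MeasurableSet.iInter fun k => MeasurableSet.iInter fun _ => MeasurableSet.iInter fun _ =>
      measurableSet_lt (measurable_dst_eval _ _) (measurable_dst_eval _ _)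
  · simp [h]

lemma measurableSet_forbidden (v p q : ℕ) :
    MeasurableSet {x : ℕ → Torus d | x v ∈ Forbidden (x p) (x q)} := by
  unfold Forbidden
  exact (measurableSet_lt (measurable_dst_eval _ _) (measurable_dst_eval _ _)).inter
    (measurableSet_lt (measurable_dst_eval _ _) (measurable_dst_eval _ _))

lemma measurableSet_DC (v : ℕ) : MeasurableSet {x : ℕ → Torus d | DC x v} := by
  have : {x : ℕ → Torus d | DC x v} = ⋃ p : ℕ, ⋃ _ : p < v, ⋃ q : ℕ, ⋃ _ : q < v,
      ({x | IsParent x v p} ∩ (({x | IsParent x p q} ∪ {x | IsParent x q p}) ∩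
        {x | x v ∈ Forbidden (x p) (x q)})) := by
    ext x
    simp only [DC, Set.mem_ofPred_eq, Set.mem_iUnion, Set.mem_inter_iff, Set.mem_union,
      exists_prop]
  rw [this]
  exact MeasurableSet.iUnion fun p => MeasurableSet.iUnion fun _ => MeasurableSet.iUnion fun q =>
    MeasurableSet.iUnion fun _ => (measurableSet_isParent _ _).inter
      (((measurableSet_isParent _ _).union (measurableSet_isParent _ _)).inter
        (measurableSet_forbidden _ _ _))

lemma measurableSet_Unc (v : ℕ) : MeasurableSet {x : ℕ → Torus d | Unc x v} := by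
  induction v using Nat.strong_induction_on with
  | _ v ih =>
    have : {x : ℕ → Torus d | Unc x v} = {x | DC x v}ᶜ ∩
        ⋂ p : ℕ, ⋂ _ : p < v, ({x | IsParent x v p}ᶜ ∪ {x | Unc x p}) := by
      ext x
      simp only [Set.mem_ofPred_eq, unc_iff x v, Set.mem_inter_iff, Set.mem_compl_iff,
        Set.mem_iInter, Set.mem_union]
      refine and_congr Iff.rfl (forall_congr' fun p => forall_congr' fun _ => ?_)
      rw [imp_iff_not_or]
    rw [this]
    exact (measurableSet_DC v).compl.inter (MeasurableSet.iInter fun p =>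
      MeasurableSet.iInter fun hp => (measurableSet_isParent _ _).compl.union (ih p hp))

end Pool.Agent.T6.H59.NN
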