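import Mathlib

/-!
# Resampling coordinates of an infinite product measure
-/

set_option autoImplicit false

namespace Pool.Agent.T6.H59.NN

open MeasureTheory
open scoped ENNReal

variable {X : Type*} [MeasurableSpace X] (μ : Measure X) [IsProbabilityMeasure μ]

/-- the infinite product -/
noncomputable def PP : Measure (ℕ → X) := Measure.infinitePi fun _ => μ

instance : IsProbabilityMeasure (PP μ) := by unfold PP; infer_instance

lemma measurable_upd (t : ℕ) : Measurable fun q : (ℕ → X) × X => Function.update q.1 t q.2 := by
  refine measurable_pi_lambda _ fun i => ?_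
  by_cases h : i = t
  · subst h
    simp only [Function.update_self]
    exact measurable_snd
  · simp only [Function.update_of_ne h]
    exact (measurable_pi_apply i).comp measurable_fst

lemma map_upd (t : ℕ) :
    ((PP μ).prod μ).map (fun q : (ℕ → X) × X => Function.update q.1 t q.2) = PP μ := by
  unfold PP
  refine Measure.eq_infinitePi _ fun s A hA => ?_
  have hm : MeasurableSet (Set.pi (s : Set ℕ) A) :=
    MeasurableSet.pi s.countable_toSet fun i _ => hA i
  rw [Measure.map_apply (measurable_upd t) hm]
  by_cases hts : t ∈ s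
  · have : (fun q : (ℕ → X) × X => Function.update q.1 t q.2) ⁻¹' (Set.pi (s : Set ℕ) A) =
        (Set.pi ((s.erase t : Finset ℕ) : Set ℕ) A) ×ˢ (A t) := by
      ext q
      simp only [Set.mem_preimage, Set.mem_pi, Finset.mem_coe, Set.mem_prod, Finset.mem_erase]
      constructor
      · intro h
        refine ⟨fun i hi => ?_, ?_⟩
        · have := h i hi.2
          rwa [Function.update_of_ne hi.1] at this
        · have := h t hts
          rwa [Function.update_self] at this
      · rintro ⟨h1, h2⟩ i hi
        by_cases hit : i = t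
        · subst hit
          rwa [Function.update_self]
        · rw [Function.update_of_ne hit]
          exact h1 i ⟨hit, hi⟩
    rw [this, Measure.prod_prod, Measure.infinitePi_pi _ fun i _ => hA i, mul_comm]
    exact Finset.mul_prod_erase s (fun i => μ (A i)) hts
  · have : (fun q : (ℕ → X) × X => Function.update q.1 t q.2) ⁻¹' (Set.pi (s : Set ℕ) A) =
        (Set.pi (s : Set ℕ) A) ×ˢ Set.univ := by
      ext q
      simp only [Set.mem_preimage, Set.mem_pi, Finset.mem_coe, Set.mem_prod, Set.mem_univ, and_true]
      refine forall_congr' fun i => forall_congr' fun hi => ?_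
      have hit : i ≠ t := fun h => hts (h ▸ hi)
      rw [Function.update_of_ne hit]
    rw [this, Measure.prod_prod, Measure.infinitePi_pi _ fun i _ => hA i, measure_univ, mul_one]

lemma lintegral_upd (t : ℕ) {f : (ℕ → X) → ℝ≥0∞} (hf : Measurable f) :
    ∫⁻ x, f x ∂(PP μ) = ∫⁻ x, ∫⁻ y, f (Function.update x t y) ∂μ ∂(PP μ) := by
  conv_lhs => rw [← map_upd μ t]
  rw [lintegral_map hf (measurable_upd t), lintegral_prod]
  exact (hf.comp (measurable_upd t)).aemeasurable

/-- independence of finitely many coordinates from the rest -/
lemma lintegral_indep (F : Finset ℕ) (S : (ℕ → X) → Set X)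
    (hS : MeasurableSet {q : (ℕ → X) × X | q.2 ∈ S q.1})
    (hSF : ∀ x, ∀ s ∈ F, ∀ y, S (Function.update x s y) = S x)
    (g : (ℕ → X) → ℝ≥0∞) (hg : Measurable g)
    (hgF : ∀ x, ∀ s ∈ F, ∀ y, g (Function.update x s y) = g x) :
    ∫⁻ x, Set.indicator {x | ∀ s ∈ F, x s ∈ S x} g x ∂(PP μ) =
      ∫⁻ x, g x * μ (S x) ^ F.card ∂(PP μ) := by
  have hS' : ∀ s : ℕ, MeasurableSet {x : ℕ → X | x s ∈ S x} := fun s => by
    have h1 : Measurable fun x : ℕ → X => (x, x s) := measurable_id.prodMk (measurable_pi_apply s)
    exact h1 hS
  have hμS : Measurable fun x => μ (S x) := measurable_measure_prodMk_left hS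
  induction F using Finset.induction_on generalizing g with
  | empty => simp
  | insert a F haF ih =>
    have h1 : ∀ x, Set.indicator {x | ∀ s ∈ insert a F, x s ∈ S x} g x =
        Set.indicator {x | ∀ s ∈ F, x s ∈ S x} (Set.indicator {x | x a ∈ S x} g) x := by
      intro x
      rw [Set.indicator_indicator]
      congr 1
      ext z
      simp only [Finset.mem_insert, forall_eq_or_imp, Set.mem_inter_iff, Set.mem_ofPred_eq]
      exact and_comm
    simp_rw [h1]
    rw [ih (fun x s hs y => hSF x s (Finset.mem_insert_of_mem hs) y)
      (Set.indicator {x | x a ∈ S x} g) (hg.indicator (hS' a)) ?_]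
    · have hmm : Measurable fun x => Set.indicator {x | x a ∈ S x} g x * μ (S x) ^ F.card :=
        (hg.indicator (hS' a)).mul (hμS.pow_const _)
      rw [lintegral_upd μ a hmm]
      refine lintegral_congr fun x => ?_
      have h2 : ∀ y, Set.indicator {x | x a ∈ S x} g (Function.update x a y) *
          μ (S (Function.update x a y)) ^ F.card =
          Set.indicator (S x) (fun _ => g x * μ (S x) ^ F.card) y := by
        intro y
        rw [hSF x a (Finset.mem_insert_self _ _) y]
        by_cases hy : y ∈ S x
        · rw [Set.indicator_of_mem hy, Set.indicator_of_mem, hgF x a (Finset.mem_insert_self _ _) y]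
          rw [Set.mem_ofPred_eq, hSF x a (Finset.mem_insert_self _ _) y, Function.update_self]
          exact hy
        · rw [Set.indicator_of_notMem hy, Set.indicator_of_notMem, zero_mul]
          rw [Set.mem_ofPred_eq, hSF x a (Finset.mem_insert_self _ _) y, Function.update_self]
          exact hy
      simp_rw [h2]
      have h3 : MeasurableSet (S x) := by
        have h4 : Measurable fun y : X => (x, y) := measurable_const.prodMk measurable_id
        exact h4 hS
      rw [lintegral_indicator_const h3, Finset.card_insert_of_notMem haF, pow_succ]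
      ring
    · intro x s hs y
      have hsa : s ≠ a := fun h => haF (h ▸ hs)
      have h5 := hSF x s (Finset.mem_insert_of_mem hs) y
      have h6 := hgF x s (Finset.mem_insert_of_mem hs) y
      by_cases hx : x a ∈ S x
      · rw [Set.indicator_of_mem, Set.indicator_of_mem, h6]
        · exact hx
        · rw [Set.mem_ofPred_eq, h5, Function.update_of_ne hsa.symm]
          exact hx
      · rw [Set.indicator_of_notMem, Set.indicator_of_notMem]
        · exact hx
        · rw [Set.mem_ofPred_eq, h5, Function.update_of_ne hsa.symm]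
          exact hx

/-- exchangeability bound -/
lemma lintegral_tail_pow (D : X → ℝ) (hD : Measurable D) (N : ℕ) :
    ∫⁻ w, μ {z | D w < D z} ^ N ∂μ ≤ (N + 1 : ℝ≥0∞)⁻¹ := by
  set ν : Measure (Fin (N + 1) → X) := Measure.pi fun _ => μ with hν
  set A : Fin (N + 1) → Set (Fin (N + 1) → X) := fun i => {x | ∀ s, s ≠ i → D (x i) < D (x s)}
    with hA
  have hAm : ∀ i, MeasurableSet (A i) := by
    intro i
    have : A i = ⋂ s, ⋂ _ : s ≠ i, {x | D (x i) < D (x s)} := by
      ext x; simp [hA]
    rw [this]
    exact MeasurableSet.iInter fun s => MeasurableSet.iInter fun _ =>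
      measurableSet_lt (hD.comp (measurable_pi_apply _)) (hD.comp (measurable_pi_apply _))
  have hdis : Pairwise fun i j => Disjoint (A i) (A j) := by
    intro i j hij
    rw [Set.disjoint_left]
    intro x hi hj
    exact absurd (hi j hij.symm) (not_lt.mpr (hj i hij).le)
  have hsum : ∑ i, ν (A i) ≤ 1 := by
    rw [← measure_biUnion_finset (fun i _ j _ hij => hdis hij) fun i _ => hAm i]
    exact prob_le_one
  have hval : ∀ i, ν (A i) = ∫⁻ w, μ {z | D w < D z} ^ N ∂μ := by
    intro i
    have hmp := measurePreserving_piFinSuccAbove (fun _ : Fin (N + 1) => μ) i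
    have h1 : A i = (MeasurableEquiv.piFinSuccAbove (fun _ => X) i) ⁻¹'
        {q : X × (Fin N → X) | ∀ s, D q.1 < D (q.2 s)} := by
      ext x
      simp only [hA, Set.mem_ofPred_eq, Set.mem_preimage, MeasurableEquiv.piFinSuccAbove_apply,
        Fin.insertNthEquiv_symm_apply]
      constructor
      · intro h s
        exact h _ (Fin.succAbove_ne i s)
      · intro h s hs
        obtain ⟨s', rfl⟩ := Fin.exists_succAbove_eq hs
        exact h s'
    have h2 : MeasurableSet {q : X × (Fin N → X) | ∀ s, D q.1 < D (q.2 s)} := by
      have : {q : X × (Fin N → X) | ∀ s, D q.1 < D (q.2 s)} =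
          ⋂ s, {q : X × (Fin N → X) | D q.1 < D (q.2 s)} := by ext; simp
      rw [this]
      exact MeasurableSet.iInter fun s => measurableSet_lt (hD.comp measurable_fst)
        (hD.comp ((measurable_pi_apply s).comp measurable_snd))
    rw [h1, hmp.measure_preimage h2.nullMeasurableSet, Measure.prod_apply h2]
    refine lintegral_congr fun w => ?_
    have h3 : (Prod.mk w ⁻¹' {q : X × (Fin N → X) | ∀ s, D q.1 < D (q.2 s)}) =
        Set.pi Set.univ fun _ : Fin N => {z | D w < D z} := by
      ext z; simp
    rw [h3]
    simp
  simp_rw [hval] at hsum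
  rw [Finset.sum_const, Finset.card_univ, Fintype.card_fin, nsmul_eq_mul] at hsum
  rw [ENNReal.le_inv_iff_mul_le, mul_comm]
  simpa using hsum

end Pool.Agent.T6.H59.NN
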