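import Pool.Agent.T6.H59.NN.Geo
import Pool.Agent.T6.H59.NN.Ev

/-!
# Radii
-/

set_option autoImplicit false

namespace Pool.Agent.T6.H59.NN

open MeasureTheory
open scoped ENNReal

variable {d : ℕ}

lemma vol_gt (w : Torus d) (a : ℝ) : volume {z : Torus d | a < dst w z} = 1 - V d a := by
  have h : {z : Torus d | a < dst w z} = {z : Torus d | dst z w ≤ a}ᶜ := by
    ext z
    simp [dst_comm w z]
  rw [h, prob_compl_eq_one_sub (measurableSet_ball w a), vol_ball]

lemma tail_pow (p : Torus d) (N : ℕ) :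
    ∫⁻ z : Torus d, volume {z' : Torus d | dst z p < dst z z'} ^ N ≤ (N + 1 : ℝ≥0∞)⁻¹ := by
  have hD : Measurable fun u : Torus d => dst u 0 := meas_dst measurable_id measurable_const
  refine le_trans (le_of_eq ?_) (lintegral_tail_pow volume (fun u : Torus d => dst u 0) hD N)
  have h1 : ∀ z : Torus d, volume {z' : Torus d | dst z p < dst z z'} ^ N =
      (fun w : Torus d => volume {u : Torus d | dst w 0 < dst u 0} ^ N) (z - p) := by
    intro z
    have e1 := dst_add z p (-p)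
    rw [add_neg_cancel, ← sub_eq_add_neg] at e1
    simp only
    rw [e1, vol_gt]
    have h2 : {u : Torus d | dst z p < dst u 0} = {u : Torus d | dst z p < dst 0 u} := by
      ext u; rw [Set.mem_ofPred_eq, Set.mem_ofPred_eq, dst_comm u 0]
    rw [h2, vol_gt]
  rw [lintegral_congr h1]
  exact lintegral_sub_right_eq_self (μ := (volume : Measure (Torus d)))
    (fun w : Torus d => volume {u : Torus d | dst w 0 < dst u 0} ^ N) p

/-- the radius of the balls of volume `1 / t` -/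
noncomputable def rr (d t : ℕ) : ℝ := (1 / (t * ve d)) ^ ((1 : ℝ) / d)

lemma rr_pos (hd : 0 < d) {t : ℕ} (ht : 0 < t) : 0 < rr d t := by
  unfold rr
  have := ve_pos hd
  have : (0 : ℝ) < t := by exact_mod_cast ht
  positivity

lemma rr_pow (hd : 0 < d) {t : ℕ} (ht : 0 < t) : rr d t ^ d = 1 / (t * ve d) := by
  unfold rr
  have h1 := ve_pos hd
  have h2 : (0 : ℝ) < t := by exact_mod_cast ht
  rw [← Real.rpow_natCast, ← Real.rpow_mul (by positivity)]
  have : (1 : ℝ) / d * d = 1 := by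
    have : (d : ℝ) ≠ 0 := by exact_mod_cast hd.ne'
    field_simp
  rw [this, Real.rpow_one]

lemma V_rr (hd : 0 < d) {t : ℕ} (ht : 0 < t) {θ : ℝ} (hθ : 0 < θ) (h : θ * rr d t ≤ 1 / 4) :
    V d (θ * rr d t) = ENNReal.ofReal (θ ^ d / t) := by
  rw [V_small (mul_pos hθ (rr_pos hd ht)) h, mul_pow, rr_pow hd ht]
  congr 1
  have := ve_pos hd
  have : (0 : ℝ) < t := by exact_mod_cast ht
  field_simp

lemma rr_lt (hd : 0 < d) {s t : ℕ} (hs : 0 < s) (ht : 0 < t) {θ : ℝ} (hθ : 0 < θ)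
    (h : (s : ℝ) < θ ^ d * t) : θ⁻¹ * rr d t < rr d s := by
  have h1 := ve_pos hd
  have h2 : (0 : ℝ) < t := by exact_mod_cast ht
  have h3 : (0 : ℝ) < s := by exact_mod_cast hs
  refine lt_of_pow_lt_pow_left₀ d (rr_pos hd hs).le ?_
  rw [mul_pow, rr_pow hd ht, rr_pow hd hs, inv_pow, one_div, one_div, mul_inv, mul_inv, ← mul_assoc]
  refine mul_lt_mul_of_pos_right ?_ (by positivity)
  rw [← mul_inv]
  exact inv_strictAnti₀ h3 h

lemma rr_le (hd : 0 < d) {s t : ℕ} (hs : 0 < s) (ht : 0 < t) {θ : ℝ} (hθ : 0 < θ)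
    (h : θ ^ d * t ≤ s) : rr d s ≤ θ⁻¹ * rr d t := by
  have h1 := ve_pos hd
  have h2 : (0 : ℝ) < t := by exact_mod_cast ht
  have h3 : (0 : ℝ) < s := by exact_mod_cast hs
  have h4 := rr_pos hd ht
  refine le_of_pow_le_pow_left₀ hd.ne' (by positivity) ?_
  rw [mul_pow, rr_pow hd ht, rr_pow hd hs, inv_pow, one_div, one_div, mul_inv, mul_inv, ← mul_assoc]
  refine mul_le_mul_of_nonneg_right ?_ (by positivity)
  rw [← mul_inv]
  exact inv_anti₀ (by positivity) h

lemma rr_anti (hd : 0 < d) {s t : ℕ} (hs : 0 < s) (h : s ≤ t) : rr d t ≤ rr d s := by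
  have := rr_le hd (hs.trans_le h) hs (θ := 1) one_pos (by
    rw [one_pow, one_mul]; exact_mod_cast h)
  simpa using this

/-- the radii tend to zero -/
lemma exists_rr_le (hd : 0 < d) {c : ℝ} (hc : 0 < c) : ∃ j0 : ℕ, 0 < j0 ∧ ∀ j ≥ j0, rr d j ≤ c := by
  have h1 := ve_pos hd
  obtain ⟨j0, hj0⟩ := exists_nat_gt (1 / (c ^ d * ve d))
  refine ⟨j0 + 1, Nat.succ_pos _, fun j hj => ?_⟩
  have hj' : 0 < j := by omega
  have hj1 : (0 : ℝ) < j := by exact_mod_cast hj'
  refine le_of_pow_le_pow_left₀ hd.ne' hc.le ?_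
  rw [rr_pow hd hj', div_le_iff₀ (by positivity)]
  have h2 : (j0 : ℝ) ≤ j := by exact_mod_cast (by omega : j0 ≤ j)
  have h3 := hj0.le.trans h2
  rw [div_le_iff₀ (by positivity)] at h3
  linarith

/-- the far part of the Voronoi cell of the vertex `t` at its arrival -/
noncomputable def W (x : ℕ → Torus d) (t : ℕ) : ℝ≥0∞ :=
  volume {w : Torus d | 8 * rr d t < dst w (x t) ∧ ∀ i < t, dst w (x t) < dst w (x i)}

/-- good vertices -/
def Good (x : ℕ → Torus d) (t : ℕ) : Prop :=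
  Unc x t ∧ (∃ q, IsParent x t q ∧ rr d t / 2 ≤ dst (x t) (x q) ∧ dst (x t) (x q) ≤ rr d t) ∧
    W x t ≤ ENNReal.ofReal (8 ^ d / 100 / t)

/-- the deterministic part of the induction step -/
lemma good_step {x : ℕ → Torus d} {j t : ℕ} (hjt : j < t) (hr : 4 * rr d t < rr d j)
    (hj : Good x j) (h1 : rr d t / 2 ≤ dst (x t) (x j)) (h2 : dst (x t) (x j) ≤ rr d t)
    (h3 : ∀ s ∈ Finset.Ioo j t, dst (x t) (x j) < dst (x t) (x s))
    (h4 : ∀ q, IsParent x j q → ¬ dst (x t) (x q) < dst (x j) (x q))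
    (h5 : ∀ s ∈ Finset.Ioo j t, ¬ (dst (x s) (x j) ≤ 8 * rr d j ∧
      (∀ i ∈ Finset.Ioo j s, dst (x s) (x j) < dst (x s) (x i)) ∧
      dst (x t) (x s) < dst (x j) (x s)))
    (h6 : ∀ s ∈ Finset.Ioo j t, ¬ (8 * rr d j < dst (x s) (x j) ∧
      (∀ i < j, dst (x s) (x j) < dst (x s) (x i)) ∧
      (∀ i ∈ Finset.Ioo j s, dst (x s) (x j) < dst (x s) (x i))))
    (h7 : W x t ≤ ENNReal.ofReal (8 ^ d / 100 / t)) :
    IsParent x t j ∧ Good x t := by
  obtain ⟨hjU, ⟨q, hq, hq1, hq2⟩, -⟩ := hj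
  have hpar : IsParent x t j := by
    refine ⟨hjt, fun k hk hne => ?_⟩
    rcases lt_or_gt_of_ne hne with hkj | hkj
    · have e1 : rr d j / 2 ≤ dst (x j) (x k) := by
        by_cases hkq : k = q
        · rw [hkq]; exact hq1
        · exact hq1.trans (hq.2 k hkj hkq).le
      have e2 := dst_triangle (x j) (x t) (x k)
      rw [dst_comm (x j) (x t)] at e2
      linarith
    · exact h3 k (Finset.mem_Ioo.mpr ⟨hkj, hk⟩)
  refine ⟨hpar, hjU.step hpar ?_, ⟨j, hpar, h1, h2⟩, h7⟩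
  rintro ⟨p, -, q', hq't, hp, hpq, hF1, hF2⟩
  obtain rfl := hp.unique hpar
  rcases hpq with h | h
  · exact h4 q' h hF2
  · have hs : q' ∈ Finset.Ioo p t := Finset.mem_Ioo.mpr ⟨h.1, hq't⟩
    have hi : ∀ i ∈ Finset.Ioo p q', dst (x q') (x p) < dst (x q') (x i) := fun i hi =>
      h.2 i (Finset.mem_Ioo.mp hi).2 (Finset.mem_Ioo.mp hi).1.ne'
    rcases le_or_gt (dst (x q') (x p)) (8 * rr d p) with hle | hgt
    · exact h5 q' hs ⟨hle, hi, hF2⟩
    · exact h6 q' hs ⟨hgt, fun i hip => h.2 i (hip.trans h.1) hip.ne, hi⟩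

/-! ### measurability and dependence on the past -/

lemma measurable_W (t : ℕ) : Measurable fun x : ℕ → Torus d => W x t := by
  unfold W
  refine measurable_measure_prodMk_left (s := {q : (ℕ → Torus d) × Torus d |
    8 * rr d t < dst q.2 (q.1 t) ∧ ∀ i < t, dst q.2 (q.1 t) < dst q.2 (q.1 i)}) ?_
  have h1 : ∀ i : ℕ, Measurable fun q : (ℕ → Torus d) × Torus d => dst q.2 (q.1 i) := fun i =>
    meas_dst measurable_snd ((measurable_pi_apply i).comp measurable_fst)
  have : {q : (ℕ → Torus d) × Torus d |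
      8 * rr d t < dst q.2 (q.1 t) ∧ ∀ i < t, dst q.2 (q.1 t) < dst q.2 (q.1 i)} =
      {q | 8 * rr d t < dst q.2 (q.1 t)} ∩ ⋂ i : ℕ, ⋂ _ : i < t,
        {q | dst q.2 (q.1 t) < dst q.2 (q.1 i)} := by
    ext q
    simp only [Set.mem_ofPred_eq, Set.mem_inter_iff, Set.mem_iInter]
  rw [this]
  exact (measurableSet_lt measurable_const (h1 t)).inter (MeasurableSet.iInter fun i =>
    MeasurableSet.iInter fun _ => measurableSet_lt (h1 t) (h1 i))

lemma measurableSet_Good (t : ℕ) : MeasurableSet {x : ℕ → Torus d | Good x t} := by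
  have : {x : ℕ → Torus d | Good x t} = {x | Unc x t} ∩ ((⋃ q : ℕ, {x | IsParent x t q} ∩
      ({x | rr d t / 2 ≤ dst (x t) (x q)} ∩ {x | dst (x t) (x q) ≤ rr d t})) ∩
      {x | W x t ≤ ENNReal.ofReal (8 ^ d / 100 / t)}) := by
    ext x
    simp only [Good, Set.mem_ofPred_eq, Set.mem_inter_iff, Set.mem_iUnion]
  rw [this]
  exact (measurableSet_Unc t).inter ((MeasurableSet.iUnion fun q =>
    (measurableSet_isParent t q).inter ((measurableSet_le measurable_const
      (measurable_dst_eval t q)).inter (measurableSet_le (measurable_dst_eval t q)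
      measurable_const))).inter (measurableSet_le (measurable_W t) measurable_const))

lemma W_congr {x y : ℕ → Torus d} {t : ℕ} (h : ∀ k ≤ t, x k = y k) : W x t = W y t := by
  unfold W
  congr 1
  ext w
  simp only [Set.mem_ofPred_eq]
  rw [h t le_rfl]
  refine and_congr Iff.rfl (forall_congr' fun i => forall_congr' fun hi => ?_)
  rw [h i (le_of_lt hi)]

lemma Good_congr {x y : ℕ → Torus d} {t : ℕ} (h : ∀ k ≤ t, x k = y k) : Good x t ↔ Good y t := by
  unfold Good
  rw [Unc_congr h, W_congr h]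
  refine and_congr Iff.rfl (and_congr (exists_congr fun q => ?_) Iff.rfl)
  rw [isParent_congr h q]
  refine and_congr_right fun hq => ?_
  rw [h t le_rfl, h q hq.1.le]

lemma Good_indep {j s : ℕ} (hs : j < s) : Indep s {x : ℕ → Torus d | Good x j} := by
  intro x y
  simp only [Set.mem_ofPred_eq]
  refine Good_congr fun k hk => ?_
  rw [Function.update_of_ne (by omega)]

end Pool.Agent.T6.H59.NN
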